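import Pool.Agent.Run7.h85.FL.AntiM

set_option autoImplicit false
set_option linter.unusedSectionVars false

/-! # Graphs without two anticomplete vertex sets with many edges -/

namespace Pool.Agent.Run7.H85.FL

open Finset Pool.Agent.TH676.Z Pool.Agent.Y335.FL Pool.Agent.Y358.IN Pool.Agent.H173FL
open Pool.Agent.N393.AHL Pool.Agent.Run7.h335.MF

section cls

variable {V E : Type} [Fintype V] [DecidableEq V] [Fintype E] [DecidableEq E]

/-- disjoint vertex sets without an edge between them -/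
def Apart (src dst : E → V) (A B : Finset V) : Prop :=
  (∀ v ∈ A, v ∉ B) ∧ ∀ e, ¬ (src e ∈ A ∧ dst e ∈ B) ∧ ¬ (src e ∈ B ∧ dst e ∈ A)

/-- three anticomplete sets with at least as many edges as vertices, two of them inside a set
which is anticomplete to the first one and has at least twelve more edges than vertices -/
def AntiP (src dst : E → V) : Prop :=
  ∃ A B C D : Finset V, A.Nonempty ∧ C.Nonempty ∧ D.Nonempty ∧ Apart src dst A B ∧
    (∀ v ∈ C, v ∈ B) ∧ (∀ v ∈ D, v ∈ B) ∧ Apart src dst C D ∧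
    A.card ≤ (ins src dst A).card ∧ B.card + 12 ≤ (ins src dst B).card ∧
    C.card ≤ (ins src dst C).card ∧ D.card ≤ (ins src dst D).card

theorem cb (a b : V) : ctr a b b = a := by simp [ctr]

theorem ca (a b : V) : ctr a b a = a := by
  simp only [ctr]
  split_ifs <;> rfl

theorem cx (a b x : V) (hx : x ≠ b) : ctr a b x = x := by simp [ctr, hx]

theorem exc_ctr (src dst : E → V) (e : E) (hne : src e ≠ dst e) (X : Finset V) (k : ℕ)
    (h : X.card + k ≤ (ins (ctr (src e) (dst e) ∘ src) (ctr (src e) (dst e) ∘ dst) X).card) :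
    (univ.filter (fun v => ctr (src e) (dst e) v ∈ X)).card + k ≤
      (ins src dst (univ.filter (fun v => ctr (src e) (dst e) v ∈ X))).card := by
  classical
  have hmem : ∀ v, v ∈ univ.filter (fun v => ctr (src e) (dst e) v ∈ X) ↔
      ctr (src e) (dst e) v ∈ X := fun v => by simp
  have hsub : ins (ctr (src e) (dst e) ∘ src) (ctr (src e) (dst e) ∘ dst) X ⊆
      ins src dst (univ.filter (fun v => ctr (src e) (dst e) v ∈ X)) := by
    intro e' he'
    obtain ⟨h1, h2, h3⟩ := mem_ins.1 he'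
    refine mem_ins.2 ⟨(hmem _).2 h1, (hmem _).2 h2, fun h4 => h3 ?_⟩
    simp only [Function.comp]
    rw [h4]
  by_cases ha : src e ∈ X
  · have h1 : univ.filter (fun v => ctr (src e) (dst e) v ∈ X) ⊆ insert (dst e) X := by
      intro v hv
      rw [hmem] at hv
      by_cases hvb : v = dst e
      · rw [hvb]
        exact mem_insert_self _ _
      · rw [cx _ _ _ hvb] at hv
        exact mem_insert_of_mem hv
    have h2 := (card_le_card h1).trans (card_insert_le _ _)
    have h3 : insert e (ins (ctr (src e) (dst e) ∘ src) (ctr (src e) (dst e) ∘ dst) X) ⊆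
        ins src dst (univ.filter (fun v => ctr (src e) (dst e) v ∈ X)) := by
      refine insert_subset ?_ hsub
      exact mem_ins.2 ⟨(hmem _).2 (by rw [ca]; exact ha), (hmem _).2 (by rw [cb]; exact ha), hne⟩
    have h4 := card_le_card h3
    rw [card_insert_of_notMem] at h4
    · omega
    · intro h5
      obtain ⟨-, -, h6⟩ := mem_ins.1 h5
      apply h6
      simp only [Function.comp]
      rw [ca, cb]
  · have h1 : univ.filter (fun v => ctr (src e) (dst e) v ∈ X) ⊆ X := by
      intro v hv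
      rw [hmem] at hv
      by_cases hvb : v = dst e
      · rw [hvb, cb] at hv
        exact absurd hv ha
      · rw [cx _ _ _ hvb] at hv
        exact hv
    have h2 := card_le_card h1
    have h4 := card_le_card hsub
    omega

theorem ne_ctr (src dst : E → V) (e : E) (A : Finset V) (h1 : A.Nonempty)
    (h4 : A.card ≤ (ins (ctr (src e) (dst e) ∘ src) (ctr (src e) (dst e) ∘ dst) A).card) :
    (univ.filter (fun v => ctr (src e) (dst e) v ∈ A)).Nonempty := by
  have h6 : (ins (ctr (src e) (dst e) ∘ src) (ctr (src e) (dst e) ∘ dst) A).Nonempty := by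
    rw [← card_pos]
    have := card_pos.2 h1
    omega
  obtain ⟨e', he'⟩ := h6
  exact ⟨src e', mem_filter.2 ⟨mem_univ _, (mem_ins.1 he').1⟩⟩

theorem apart_ctr (src dst : E → V) (e : E) (A B : Finset V)
    (h : Apart (ctr (src e) (dst e) ∘ src) (ctr (src e) (dst e) ∘ dst) A B) :
    Apart src dst (univ.filter (fun v => ctr (src e) (dst e) v ∈ A))
      (univ.filter (fun v => ctr (src e) (dst e) v ∈ B)) := by
  have hmem : ∀ (X : Finset V) v, v ∈ univ.filter (fun v => ctr (src e) (dst e) v ∈ X) ↔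
      ctr (src e) (dst e) v ∈ X := fun X v => by simp
  obtain ⟨h1, h2⟩ := h
  refine ⟨fun v hv hv' => h1 _ ((hmem A v).1 hv) ((hmem B v).1 hv'), fun e' => ⟨?_, ?_⟩⟩
  · rintro ⟨h6, h7⟩
    exact (h2 e').1 ⟨(hmem A _).1 h6, (hmem B _).1 h7⟩
  · rintro ⟨h6, h7⟩
    exact (h2 e').2 ⟨(hmem B _).1 h6, (hmem A _).1 h7⟩

theorem ccAnti : CC (V := V) (E := E) (fun src dst => ¬ AntiP src dst) := by
  intro src dst e h hne h'
  apply h
  obtain ⟨A, B, C, D, a1, a2, a3, a4, a5, a6, a7, a8, a9, a10, a11⟩ := h'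
  have hmem : ∀ (X : Finset V) v, v ∈ univ.filter (fun v => ctr (src e) (dst e) v ∈ X) ↔
      ctr (src e) (dst e) v ∈ X := fun X v => by simp
  refine ⟨univ.filter (fun v => ctr (src e) (dst e) v ∈ A),
    univ.filter (fun v => ctr (src e) (dst e) v ∈ B),
    univ.filter (fun v => ctr (src e) (dst e) v ∈ C),
    univ.filter (fun v => ctr (src e) (dst e) v ∈ D), ne_ctr src dst e A a1 a8,
    ne_ctr src dst e C a2 a10, ne_ctr src dst e D a3 a11, apart_ctr src dst e A B a4,
    fun v hv => (hmem B v).2 (a5 _ ((hmem C v).1 hv)),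
    fun v hv => (hmem B v).2 (a6 _ ((hmem D v).1 hv)), apart_ctr src dst e C D a7,
    ?_, exc_ctr src dst e hne B 12 a9, ?_, ?_⟩
  · have := exc_ctr src dst e hne A 0 (by omega)
    omega
  · have := exc_ctr src dst e hne C 0 (by omega)
    omega
  · have := exc_ctr src dst e hne D 0 (by omega)
    omega

end cls

section main

variable {V E : Type} [Fintype V] [DecidableEq V] [Fintype E] [DecidableEq E]

/-- **Main step.** -/
theorem flow_of_anti (hc : St_contract) (src dst : E → V) (hcl : ¬ AntiP src dst)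
    (hbr : Br src dst ∅ ∅) : FlowOn src dst ∅ ∅ := by
  classical
  by_contra hn
  obtain ⟨s, d, hS, hM⟩ := exists_minC ccAnti src dst hcl hbr hn
  obtain ⟨G, hG, h12, h3, ⟨x, y, hxy⟩, hdg⟩ := frame hc hM
  have h2 : ∀ x y pr, G.Adj x y → ∃ a, G.Adj x a ∧ a ≠ pr := by
    intro x y pr hxy
    obtain ⟨a, b, ha, -, -, hne, -⟩ := two_more (pr := pr) (h3 x y hxy)
    exact ⟨a, ha, hne⟩
  obtain ⟨g, hg12, hg, f, hf⟩ := exists_cyc h12 h2 hxy
  obtain ⟨A, B, C, D, a1, a2, a3, a4, a5, a6, a7, a8, a9, a10, a11, a12, a13⟩ :=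
    cyc3 hg hg12 h3 hf
  have hap : ∀ X Y : Finset V, (∀ v ∈ X, v ∉ Y) → (∀ v ∈ X, ∀ w ∈ Y, ¬ G.Adj v w) →
      Apart s d X Y := by
    intro X Y h4 h5
    refine ⟨h4, fun e => ⟨?_, ?_⟩⟩
    · rintro ⟨ha, hb⟩
      refine h5 _ ha _ hb ((hG _ _).2 ⟨?_, e, Or.inl ⟨rfl, rfl⟩⟩)
      intro h
      exact h4 _ ha (h ▸ hb)
    · rintro ⟨hb, ha⟩
      refine h5 _ ha _ hb ((hG _ _).2 ⟨?_, e, Or.inr ⟨rfl, rfl⟩⟩)
      intro h
      exact h4 _ ha (h ▸ hb)
  apply hS
  refine ⟨A, B, C, D, a1, a2, a3, hap A B a4 a5, a6, a7, hap C D a8 a9, ?_, ?_, ?_, ?_⟩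
  · have := a10.trans (ins_sum hG A)
    omega
  · have := a11.trans (ins_sum hG B)
    omega
  · have := a12.trans (ins_sum hG C)
    omega
  · have := a13.trans (ins_sum hG D)
    omega

/-- **Modulo a chain of cycles.** -/
theorem flow_anti_mod (hc : St_contract) (hQ : St_quot) {s d : E → V} {F : Finset E} {r : V → V}
    (hb : Br s d ∅ ∅) (hr : Contr5 s d F r) (h : ¬ AntiP (r ∘ s) (r ∘ d)) : FlowOn s d ∅ F :=
  lift_contr hQ hr (flow_of_anti hc _ _ h (Br.map r hb))

end main

end Pool.Agent.Run7.H85.FL
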