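import Pool.Agent.H173FL.Tree
import Pool.Agent.Run7.h335.MF.Mod

set_option autoImplicit false
set_option linter.unusedSectionVars false

/-! # Graphs without an induced minor isomorphic to the ball of radius five in the cubic tree -/

namespace Pool.Agent.Run7.H85.FL

open Finset Pool.Agent.TH676.Z Pool.Agent.Y335.FL Pool.Agent.Y358.IN Pool.Agent.H173FL
open Pool.Agent.Run7.h335.MF

/-- vertices of the tree: words with at most five letters (side `false`) or at most four letters
(side `true`) -/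
def Adr (t : Bool × List Bool) : Prop := t.2.length ≤ 5 ∧ (t.1 = true → t.2.length ≤ 4)

/-- edges of the tree -/
def Ted (t t' : Bool × List Bool) : Prop :=
  (t = (false, []) ∧ t' = (true, [])) ∨ ∃ c, Adr t' ∧ t' = (t.1, c :: t.2)

/-- the vertices which do not have the label `t` and are adjacent to a vertex with the label `t` -/
def nbs {V E : Type} [Fintype V] (src dst : E → V) (β : V → Option (Bool × List Bool))
    (t : Bool × List Bool) : Set V :=
  {v | β v ≠ some t ∧ ∃ e, (src e = v ∧ β (dst e) = some t) ∨ (dst e = v ∧ β (src e) = some t)}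

/-- induced minor isomorphic to the tree, given by labels; all branch sets have at least three
neighbours -/
def IndMinor {V E : Type} [Fintype V] (src dst : E → V) : Prop :=
  ∃ β : V → Option (Bool × List Bool),
    (∀ v t, β v = some t → Adr t) ∧
    (∀ t : Bool × List Bool, ∀ X : V → Prop,
      (∃ v, X v ∧ β v = some t) → (∃ v, ¬ X v ∧ β v = some t) →
      ∃ e, β (src e) = some t ∧ β (dst e) = some t ∧ ¬ (X (src e) ↔ X (dst e))) ∧
    (∀ t t', Ted t t' → ∃ e, (β (src e) = some t ∧ β (dst e) = some t') ∨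
      (β (dst e) = some t ∧ β (src e) = some t')) ∧
    (∀ e t t', β (src e) = some t → β (dst e) = some t' → t = t' ∨ Ted t t' ∨ Ted t' t) ∧
    ∀ t, Adr t → 3 ≤ (nbs src dst β t).ncard

section cls

variable {V E : Type} [Fintype V] [DecidableEq V] [Fintype E] [DecidableEq E]

theorem indMinor_ctr (src dst : E → V) (e : E)
    (h : IndMinor (ctr (src e) (dst e) ∘ src) (ctr (src e) (dst e) ∘ dst)) :
    IndMinor src dst := by
  obtain ⟨β, h0, h1, h2, h3, h5⟩ := h
  set φ := ctr (src e) (dst e) with hφ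
  have hφb : φ (dst e) = src e := by simp [hφ, ctr]
  have hφa : φ (src e) = src e := by
    simp only [hφ, ctr]
    split_ifs <;> rfl
  have hφx : ∀ x, x ≠ dst e → φ x = x := by
    intro x hx
    simp [hφ, ctr, hx]
  refine ⟨β ∘ φ, fun v t h => h0 (φ v) t h, ?_, h2, h3, fun t ht => (h5 t ht).trans ?_⟩
  swap
  · have h6 : nbs (φ ∘ src) (φ ∘ dst) β t ⊆ φ '' nbs src dst (β ∘ φ) t := by
      rintro v ⟨h7, e', ⟨h8, h9⟩ | ⟨h8, h9⟩⟩
      · exact ⟨src e', ⟨fun h => h7 (by rw [← h8]; exact h), e', Or.inl ⟨rfl, h9⟩⟩, h8⟩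
      · exact ⟨dst e', ⟨fun h => h7 (by rw [← h8]; exact h), e', Or.inr ⟨rfl, h9⟩⟩, h8⟩
    exact (Set.ncard_le_ncard h6 (Set.toFinite _)).trans (Set.ncard_image_le (Set.toFinite _))
  intro t X hv hv'
  obtain ⟨v, hvX, hvt⟩ := hv
  obtain ⟨v', hvX', hvt'⟩ := hv'
  simp only [Function.comp] at hvt hvt' ⊢
  by_cases ha : β (src e) = some t
  · by_cases hX : X (src e) ↔ X (dst e)
    · have hXφ : ∀ x, X (φ x) ↔ X x := by
        intro x
        by_cases hx : x = dst e
        · rw [hx, hφb, hX]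
        · rw [hφx x hx]
      obtain ⟨e', a1, a2, a3⟩ := h1 t X ⟨φ v, (hXφ v).mpr hvX, hvt⟩
        ⟨φ v', fun h => hvX' ((hXφ v').mp h), hvt'⟩
      refine ⟨e', a1, a2, fun h => a3 ?_⟩
      simp only [Function.comp]
      rw [hXφ, hXφ]
      exact h
    · exact ⟨e, by rw [hφa]; exact ha, by rw [hφb]; exact ha, hX⟩
  · have hne : ∀ x, β (φ x) = some t → φ x = x := by
      intro x hx
      refine hφx x fun h => ha ?_
      rw [h, hφb] at hx
      exact hx
    obtain ⟨e', a1, a2, a3⟩ := h1 t X ⟨v, hvX, by rw [hne v hvt] at hvt; exact hvt⟩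
      ⟨v', hvX', by rw [hne v' hvt'] at hvt'; exact hvt'⟩
    simp only [Function.comp] at a1 a2 a3
    refine ⟨e', a1, a2, fun h => a3 ?_⟩
    rw [hne _ a1, hne _ a2]
    exact h

theorem ccI : CC (V := V) (E := E) (fun src dst => ¬ IndMinor src dst) :=
  fun src dst e h _ h' => h (indMinor_ctr src dst e h')

end cls

section graph

variable {V : Type} [Fintype V] [DecidableEq V] {G : SimpleGraph V}

variable (h12 : ∀ (w : V) (c : G.Walk w w), c.IsCycle → 12 ≤ c.length)
  (N : V → V → V × V)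
  (hN : ∀ v pr : V, (∃ z, G.Adj v z) → G.Adj v (N v pr).1 ∧ G.Adj v (N v pr).2 ∧
    (N v pr).1 ≠ (N v pr).2 ∧ (N v pr).1 ≠ pr ∧ (N v pr).2 ≠ pr)

include h12 hN

/-- adjacent vertices on one side -/
theorem adj_same {x y : V} (hxy : G.Adj x y) (w w' : List Bool) (hw : w.length ≤ 5)
    (hw' : w'.length ≤ 5) (h : G.Adj (addr N x y w).1 (addr N x y w').1) :
    (∃ c, w' = c :: w) ∨ (∃ c, w = c :: w') := by
  obtain ⟨p, hp, hy, hpl, hpen⟩ := addr_path h12 N hN hxy w hw
  obtain ⟨p', hp', hy', hpl', hpen'⟩ := addr_path h12 N hN hxy w' hw'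
  by_cases hb : (addr N x y w').1 = (addr N x y w).2
  · right
    cases w with
    | nil =>
      exfalso
      apply hy'
      have h1 : (addr N x y w').1 = y := hb
      exact (congrArg (fun z => z ∈ p'.support) h1).mp p'.end_mem_support
    | cons c w0 =>
      rw [List.length_cons] at hw
      have h1 : (addr N x y w').1 = (addr N x y w0).1 := hb
      exact ⟨c, by rw [addr_inj h12 N hN hxy w' w0 hw' (by omega) h1]⟩
  · left
    have hq : (SimpleGraph.Walk.cons hxy.symm p).IsPath := by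
      rw [SimpleGraph.Walk.cons_isPath_iff]
      exact ⟨hp, hy⟩
    have h4 := ext_path h12 _ hq (by rw [SimpleGraph.Walk.length_cons]; omega) h
      (by rw [hpen]; exact hb)
    rw [SimpleGraph.Walk.support_cons, List.mem_cons, not_or] at h4
    by_cases hl : w.length + 1 + w'.length ≤ 11
    · have e1 := Ord.uniq h12 (hp.concat h4.2 h) hp' (by
        rw [SimpleGraph.Walk.length_concat]; omega)
      have h5 : w'.length = w.length + 1 := by
        rw [← hpl', ← e1, SimpleGraph.Walk.length_concat, hpl]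
      have h6 : (addr N x y w').2 = (addr N x y w).1 := by
        rw [← hpen', ← e1, show SimpleGraph.Walk.cons hxy.symm (p.concat h)
          = (SimpleGraph.Walk.cons hxy.symm p).concat h from rfl,
          SimpleGraph.Walk.penultimate_concat]
      cases w' with
      | nil => simp at h5
      | cons c w0 =>
        rw [List.length_cons] at hw'
        have h7 : (addr N x y w0).1 = (addr N x y w).1 := h6
        exact ⟨c, by rw [addr_inj h12 N hN hxy w0 w (by omega) hw h7]⟩
    · omega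

/-- adjacent vertices on two sides -/
theorem adj_cross {x y : V} (hxy : G.Adj x y) (w w' : List Bool) (hw : w.length ≤ 5)
    (hw' : w'.length ≤ 4) (h : G.Adj (addr N x y w).1 (addr N y x w').1) :
    w = [] ∧ w' = [] := by
  obtain ⟨p, hp, hy, hpl, hpen⟩ := addr_path h12 N hN hxy w hw
  obtain ⟨p', hp', hy', hpl', hpen'⟩ := addr_path h12 N hN hxy.symm w' (by omega)
  by_cases hb : (addr N y x w').1 = (addr N x y w).2
  · cases w with
    | nil =>
      have h1 : (addr N y x w').1 = (addr N y x []).1 := hb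
      exact ⟨rfl, addr_inj h12 N hN hxy.symm w' [] (by omega) (by simp) h1⟩
    | cons c w0 =>
      rw [List.length_cons] at hw
      have h1 : (addr N x y w0).1 = (addr N y x w').1 := hb.symm
      exact absurd h1 (addr_ne h12 N hN hxy w0 w' (by omega) (by omega))
  · exfalso
    have hq : (SimpleGraph.Walk.cons hxy.symm p).IsPath := by
      rw [SimpleGraph.Walk.cons_isPath_iff]
      exact ⟨hp, hy⟩
    have hq' : (SimpleGraph.Walk.cons hxy p').IsPath := by
      rw [SimpleGraph.Walk.cons_isPath_iff]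
      exact ⟨hp', hy'⟩
    have h4 := ext_path h12 _ hq (by rw [SimpleGraph.Walk.length_cons]; omega) h
      (by rw [hpen]; exact hb)
    rw [SimpleGraph.Walk.support_cons, List.mem_cons, not_or] at h4
    have e1 := Ord.uniq h12 (hp.concat h4.2 h) hq' (by
      rw [SimpleGraph.Walk.length_concat, SimpleGraph.Walk.length_cons]; omega)
    have h5 : y ∈ (p.concat h).support := by
      rw [e1, SimpleGraph.Walk.support_cons]
      exact List.mem_cons_of_mem _ p'.start_mem_support
    rw [SimpleGraph.Walk.support_concat, List.mem_append] at h5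
    rcases h5 with h5 | h5
    · exact hy h5
    · rw [List.mem_singleton] at h5
      exact h4.1 h5.symm

end graph

/-- **Main step.** -/
theorem flow_of_no_ind (hc : St_contract) {V E : Type} [Fintype V] [DecidableEq V]
    [Fintype E] [DecidableEq E] (src dst : E → V) (hcl : ¬ IndMinor src dst)
    (hbr : Br src dst ∅ ∅) : FlowOn src dst ∅ ∅ := by
  classical
  by_contra hn
  obtain ⟨s, d, hS, hM⟩ := exists_minC ccI src dst hcl hbr hn
  have h3 := threeC hc hM
  have hgi := girthC hc hM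
  by_cases hl : ∀ e, s e = d e
  · exact hM.nf (flow_of_loops hl)
  push Not at hl
  obtain ⟨e, he⟩ := hl
  let G : SimpleGraph V :=
    { Adj := Adj s d
      symm := ⟨fun a b h => GiAux.adj_symm h⟩
      loopless := ⟨fun a h => h.1 rfl⟩ }
  have hG : ∀ a b, G.Adj a b ↔ Adj s d a b := fun a b => Iff.rfl
  have h12 : ∀ (w : V) (c : G.Walk w w), c.IsCycle → 12 ≤ c.length :=
    fun w c hc => Ord.cycle_len hgi G hG c hc
  have h3' : ∀ x y, G.Adj x y → ∃ a b c, G.Adj x a ∧ G.Adj x b ∧ G.Adj x c ∧ a ≠ b ∧ a ≠ c ∧ b ≠ c :=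
    fun x y h => h3 x y h
  have hxy : G.Adj (s e) (d e) := ⟨he, e, Or.inl ⟨rfl, rfl⟩⟩
  obtain ⟨N, hN⟩ : ∃ N : V → V → V × V, ∀ v pr : V, (∃ z, G.Adj v z) →
      G.Adj v (N v pr).1 ∧ G.Adj v (N v pr).2 ∧
      (N v pr).1 ≠ (N v pr).2 ∧ (N v pr).1 ≠ pr ∧ (N v pr).2 ≠ pr := by
    have : ∀ v pr : V, ∃ q : V × V, (∃ z, G.Adj v z) → G.Adj v q.1 ∧ G.Adj v q.2 ∧
        q.1 ≠ q.2 ∧ q.1 ≠ pr ∧ q.2 ≠ pr := by
      intro v pr
      by_cases hz : ∃ z, G.Adj v z
      · obtain ⟨z, hz⟩ := hz
        obtain ⟨a, b, h⟩ := two_more (pr := pr) (h3' v z hz)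
        exact ⟨(a, b), fun _ => h⟩
      · exact ⟨(v, v), fun h => absurd h hz⟩
    choose N hN using this
    exact ⟨N, hN⟩
  obtain ⟨x, hx⟩ : ∃ x, x = s e := ⟨_, rfl⟩
  obtain ⟨y, hy⟩ : ∃ y, y = d e := ⟨_, rfl⟩
  rw [← hx, ← hy] at hxy
  let emb : Bool × List Bool → V := fun t => if t.1 then (addr N y x t.2).1 else (addr N x y t.2).1
  have hinj : ∀ t t' : Bool × List Bool, t.2.length ≤ 5 → t'.2.length ≤ 5 → emb t = emb t' →
      t = t' := by
    rintro ⟨b, w⟩ ⟨b', w'⟩ h1 h2 h
    cases b <;> cases b' <;> simp only [emb, if_true, if_false, Bool.false_eq_true] at h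
    · rw [addr_inj h12 N hN hxy w w' h1 h2 h]
    · exact absurd h (addr_ne h12 N hN hxy w w' h1 h2)
    · exact absurd h.symm (addr_ne h12 N hN hxy w' w h2 h1)
    · rw [addr_inj h12 N hN hxy.symm w w' h1 h2 h]
  have hadj : ∀ (b c : Bool) (w : List Bool), w.length ≤ 5 → G.Adj (emb (b, w)) (emb (b, c :: w)) := by
    intro b c w hw
    cases b
    · obtain ⟨p, -⟩ := addr_path h12 N hN hxy w hw
      obtain ⟨n1, n2, -⟩ := hN (addr N x y w).1 (addr N x y w).2 (Ord.nbr hxy p)
      cases c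
      · exact n2
      · exact n1
    · obtain ⟨p, -⟩ := addr_path h12 N hN hxy.symm w hw
      obtain ⟨n1, n2, -⟩ := hN (addr N y x w).1 (addr N y x w).2 (Ord.nbr hxy.symm p)
      cases c
      · exact n2
      · exact n1
  -- adjacent images
  have hind : ∀ t t' : Bool × List Bool, Adr t → Adr t' → G.Adj (emb t) (emb t') →
      Ted t t' ∨ Ted t' t := by
    rintro ⟨b, w⟩ ⟨b', w'⟩ ⟨h1, h1'⟩ ⟨h2, h2'⟩ h
    cases b <;> cases b' <;> simp only [emb, if_true, if_false, Bool.false_eq_true] at h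
    · rcases adj_same h12 N hN hxy w w' h1 h2 h with ⟨c, hc⟩ | ⟨c, hc⟩
      · left; right
        exact ⟨c, ⟨h2, h2'⟩, by rw [hc]⟩
      · right; right
        exact ⟨c, ⟨h1, h1'⟩, by rw [hc]⟩
    · obtain ⟨a1, a2⟩ := adj_cross h12 N hN hxy w w' h1 (h2' rfl) h
      left; left
      rw [a1, a2]
      exact ⟨rfl, rfl⟩
    · obtain ⟨a1, a2⟩ := adj_cross h12 N hN hxy w' w h2 (h1' rfl) h.symm
      right; left
      rw [a1, a2]
      exact ⟨rfl, rfl⟩
    · rcases adj_same h12 N hN hxy.symm w w' h1 h2 h with ⟨c, hc⟩ | ⟨c, hc⟩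
      · left; right
        exact ⟨c, ⟨h2, h2'⟩, by rw [hc]⟩
      · right; right
        exact ⟨c, ⟨h1, h1'⟩, by rw [hc]⟩
  let β : V → Option (Bool × List Bool) := fun v =>
    if h : ∃ t : Bool × List Bool, Adr t ∧ emb t = v then some (Classical.choose h) else none
  have hβ1 : ∀ t : Bool × List Bool, Adr t → β (emb t) = some t := by
    intro t ht
    have h : ∃ t' : Bool × List Bool, Adr t' ∧ emb t' = emb t := ⟨t, ht, rfl⟩
    have h1 := Classical.choose_spec h
    simp only [β]
    rw [dif_pos h]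
    congr 1
    exact hinj _ _ h1.1.1 ht.1 h1.2
  have hβ2 : ∀ v t, β v = some t → Adr t ∧ emb t = v := by
    intro v t h
    simp only [β] at h
    by_cases h1 : ∃ t : Bool × List Bool, Adr t ∧ emb t = v
    · rw [dif_pos h1, Option.some_inj] at h
      rw [← h]
      exact Classical.choose_spec h1
    · rw [dif_neg h1] at h
      exact absurd h (by simp)
  have hedge : ∀ t t' : Bool × List Bool, Adr t → Adr t' → G.Adj (emb t) (emb t') →
      ∃ e, (β (s e) = some t ∧ β (d e) = some t') ∨ (β (d e) = some t ∧ β (s e) = some t') := by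
    intro t t' h1 h2 h
    obtain ⟨-, e', he'⟩ := h
    refine ⟨e', ?_⟩
    rcases he' with ⟨a, b⟩ | ⟨a, b⟩
    · left
      rw [a, b]
      exact ⟨hβ1 t h1, hβ1 t' h2⟩
    · right
      rw [a, b]
      exact ⟨hβ1 t h1, hβ1 t' h2⟩
  apply hS
  refine ⟨β, fun v t h => (hβ2 v t h).1, ?_, ?_, ?_, ?_⟩
  · intro t X hv hv'
    obtain ⟨v, hvX, hvt⟩ := hv
    obtain ⟨v', hvX', hvt'⟩ := hv'
    exfalso
    apply hvX'
    rw [← (hβ2 v' t hvt').2, (hβ2 v t hvt).2]
    exact hvX
  · rintro t t' (⟨h1, h2⟩ | ⟨c, h1, h2⟩)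
    · rw [h1, h2]
      exact hedge (false, []) (true, []) ⟨by simp, by simp⟩ ⟨by simp, by simp⟩ hxy
    · obtain ⟨b, w⟩ := t
      subst h2
      obtain ⟨h3, h4⟩ := h1
      simp only [List.length_cons] at h3 h4
      exact hedge (b, w) (b, c :: w) ⟨by simp only; omega, fun h => by have := h4 h; simp only; omega⟩
        ⟨by simpa using h3, by simpa using h4⟩ (hadj b c w (by omega))
  · intro e' t t' h1 h2
    obtain ⟨a1, a2⟩ := hβ2 _ _ h1
    obtain ⟨b1, b2⟩ := hβ2 _ _ h2
    by_cases htt : t = t'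
    · exact Or.inl htt
    · right
      apply hind t t' a1 b1
      refine ⟨fun h => htt (hinj t t' a1.1 b1.1 h), e', Or.inl ⟨a2.symm, b2.symm⟩⟩
  · intro t ht
    obtain ⟨z, hz⟩ : ∃ z, G.Adj (emb t) z := by
      obtain ⟨b, w⟩ := t
      cases b
      · obtain ⟨p, -⟩ := addr_path h12 N hN hxy w ht.1
        exact Ord.nbr hxy p
      · obtain ⟨p, -⟩ := addr_path h12 N hN hxy.symm w ht.1
        exact Ord.nbr hxy.symm p
    obtain ⟨a, b, c, ha, hb, hc', hab, hac, hbc⟩ := h3' _ z hz
    have key : ∀ u, G.Adj (emb t) u → u ∈ nbs s d β t := by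
      intro u hu
      refine ⟨fun h => hu.ne (hβ2 u t h).2, ?_⟩
      obtain ⟨-, e', he'⟩ := hu
      refine ⟨e', ?_⟩
      rcases he' with ⟨a, b⟩ | ⟨a, b⟩
      · right
        exact ⟨b, by rw [a]; exact hβ1 t ht⟩
      · left
        exact ⟨a, by rw [b]; exact hβ1 t ht⟩
    have h7 : (({a, b, c} : Finset V) : Set V) ⊆ nbs s d β t := by
      intro u hu
      simp only [coe_insert, coe_singleton, Set.mem_insert_iff, Set.mem_singleton_iff] at hu
      rcases hu with rfl | rfl | rfl
      · exact key _ ha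
      · exact key _ hb
      · exact key _ hc'
    have h8 := Set.ncard_le_ncard h7 (Set.toFinite _)
    rw [Set.ncard_coe_finset, card_eq_three.2 ⟨a, b, c, hab, hac, hbc, rfl⟩] at h8
    exact h8

/-- **Modulo a chain of cycles.** -/
theorem flow_ind_mod {V E : Type} [Fintype V] [DecidableEq V] [Fintype E] [DecidableEq E]
    (hc : St_contract) (hQ : St_quot) {s d : E → V} {F : Finset E} {r : V → V}
    (hb : Br s d ∅ ∅) (hr : Contr5 s d F r) (h : ¬ IndMinor (r ∘ s) (r ∘ d)) : FlowOn s d ∅ F :=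
  lift_contr hQ hr (flow_of_no_ind hc _ _ h (Br.map r hb))

end Pool.Agent.Run7.H85.FL
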