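import Pool.Agent.Run7.h335.MF.Mod
import Pool.Agent.H173FL.Radius

set_option autoImplicit false
set_option linter.unusedSectionVars false

/-! # Graphs without 63 disjoint connected sets with two branch vertices and four neighbours -/

namespace Pool.Agent.Run7.H85.FL

open Finset Pool.Agent.TH676.Z Pool.Agent.Y335.FL Pool.Agent.Y358.IN Pool.Agent.H173FL
open Pool.Agent.N393.AHL Pool.Agent.Run7.h335.MF

section def1

variable {V E : Type} [Fintype V] [DecidableEq V] [Fintype E] [DecidableEq E]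

/-- `X` is connected, contains two vertices of degree at least three, and has at least four
neighbours -/
def Pk (src dst : E → V) (X : Finset V) : Prop :=
  (∀ A : V → Prop, (∃ v ∈ X, A v) → (∃ v ∈ X, ¬ A v) →
    ∃ e, src e ∈ X ∧ dst e ∈ X ∧ ¬ (A (src e) ↔ A (dst e))) ∧
  (∃ x ∈ X, ∃ y ∈ X, x ≠ y ∧ 3 ≤ dg src dst x ∧ 3 ≤ dg src dst y) ∧
  4 ≤ (univ.filter (fun v => v ∉ X ∧
    ∃ e, (src e = v ∧ dst e ∈ X) ∨ (dst e = v ∧ src e ∈ X))).card

/-- `k` disjoint sets of this kind -/
def Pack (k : ℕ) (src dst : E → V) : Prop :=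
  ∃ P : Fin k → Finset V, (∀ i j, i ≠ j → Disjoint (P i) (P j)) ∧ ∀ i, Pk src dst (P i)

theorem ctr_b (a b : V) : ctr a b b = a := by simp [ctr]

theorem ctr_a (a b : V) : ctr a b a = a := by
  simp only [ctr]
  split_ifs <;> rfl

theorem ctr_x (a b x : V) (hx : x ≠ b) : ctr a b x = x := by simp [ctr, hx]

theorem dg_other (src dst : E → V) (a b x : V) (hxa : x ≠ a)
    (hx : 3 ≤ dg (ctr a b ∘ src) (ctr a b ∘ dst) x) : x ≠ b ∧ 3 ≤ dg src dst x := by
  have hxb : x ≠ b := by
    rintro rfl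
    have h0 : dg (ctr a x ∘ src) (ctr a x ∘ dst) x = 0 := by
      unfold dg
      rw [card_eq_zero, filter_eq_empty_iff]
      have key0 : ∀ z, ctr a x z ≠ x := by
        intro z hz
        by_cases h1 : z = x
        · rw [h1, ctr_b] at hz
          exact hxa hz.symm
        · rw [ctr_x _ _ _ h1] at hz
          exact h1 hz
      intro e _
      rintro ⟨-, h | h⟩
      · exact key0 _ h
      · exact key0 _ h
    omega
  refine ⟨hxb, hx.trans (card_le_card fun e he => ?_)⟩
  obtain ⟨-, h1, h2⟩ := mem_filter.1 he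
  refine mem_filter.2 ⟨mem_univ _, fun h => h1 (by simp only [Function.comp]; rw [h]), ?_⟩
  have key : ∀ z, ctr a b z = x → z = x := by
    intro z hz
    by_cases hzb : z = b
    · rw [hzb, ctr_b] at hz
      exact absurd hz.symm hxa
    · rwa [ctr_x _ _ _ hzb] at hz
  rcases h2 with h | h
  · exact Or.inl (key _ h)
  · exact Or.inr (key _ h)

theorem dg_end (src dst : E → V) (e : E) (hne : src e ≠ dst e)
    (hx : 3 ≤ dg (ctr (src e) (dst e) ∘ src) (ctr (src e) (dst e) ∘ dst) (src e)) :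
    3 ≤ dg src dst (src e) ∨ 3 ≤ dg src dst (dst e) := by
  classical
  by_contra hcon
  push Not at hcon
  obtain ⟨h1, h2⟩ := hcon
  set a := src e with ha
  set b := dst e with hb
  have hsub : insert e (univ.filter (fun e' => (ctr a b ∘ src) e' ≠ (ctr a b ∘ dst) e' ∧
      ((ctr a b ∘ src) e' = a ∨ (ctr a b ∘ dst) e' = a))) ⊆
      univ.filter (fun e => src e ≠ dst e ∧ (src e = a ∨ dst e = a)) ∪
      univ.filter (fun e => src e ≠ dst e ∧ (src e = b ∨ dst e = b)) := by
    intro e' he'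
    rw [mem_insert] at he'
    rcases he' with rfl | he'
    · exact mem_union_left _ (mem_filter.2 ⟨mem_univ _, hne, Or.inl rfl⟩)
    · obtain ⟨-, h3, h4⟩ := mem_filter.1 he'
      have h5 : src e' ≠ dst e' := fun h => h3 (by simp only [Function.comp]; rw [h])
      have key : ∀ z, ctr a b z = a → z = a ∨ z = b := by
        intro z hz
        by_cases hzb : z = b
        · exact Or.inr hzb
        · rw [ctr_x _ _ _ hzb] at hz
          exact Or.inl hz
      rw [mem_union, mem_filter, mem_filter]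
      rcases h4 with h | h
      · rcases key _ h with h | h
        · exact Or.inl ⟨mem_univ _, h5, Or.inl h⟩
        · exact Or.inr ⟨mem_univ _, h5, Or.inl h⟩
      · rcases key _ h with h | h
        · exact Or.inl ⟨mem_univ _, h5, Or.inr h⟩
        · exact Or.inr ⟨mem_univ _, h5, Or.inr h⟩
  have hnot : e ∉ univ.filter (fun e' => (ctr a b ∘ src) e' ≠ (ctr a b ∘ dst) e' ∧
      ((ctr a b ∘ src) e' = a ∨ (ctr a b ∘ dst) e' = a)) := by
    intro h
    obtain ⟨-, h3, -⟩ := mem_filter.1 h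
    apply h3
    simp only [Function.comp]
    rw [← ha, ← hb, ctr_a, ctr_b]
  have hint : e ∈ univ.filter (fun e => src e ≠ dst e ∧ (src e = a ∨ dst e = a)) ∩
      univ.filter (fun e => src e ≠ dst e ∧ (src e = b ∨ dst e = b)) :=
    mem_inter.2 ⟨mem_filter.2 ⟨mem_univ _, hne, Or.inl rfl⟩,
      mem_filter.2 ⟨mem_univ _, hne, Or.inr rfl⟩⟩
  have c1 := card_le_card hsub
  rw [card_insert_of_notMem hnot] at c1
  have c2 := card_union_add_card_inter
    (univ.filter (fun e => src e ≠ dst e ∧ (src e = a ∨ dst e = a)))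
    (univ.filter (fun e => src e ≠ dst e ∧ (src e = b ∨ dst e = b)))
  have c3 : 1 ≤ (univ.filter (fun e => src e ≠ dst e ∧ (src e = a ∨ dst e = a)) ∩
      univ.filter (fun e => src e ≠ dst e ∧ (src e = b ∨ dst e = b))).card :=
    card_pos.2 ⟨e, hint⟩
  unfold dg at hx h1 h2
  omega

theorem pk_ctr (src dst : E → V) (e : E) (hne : src e ≠ dst e) (X : Finset V)
    (h : Pk (ctr (src e) (dst e) ∘ src) (ctr (src e) (dst e) ∘ dst) X) :
    Pk src dst (univ.filter (fun v => ctr (src e) (dst e) v ∈ X)) := by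
  classical
  obtain ⟨h1, ⟨x, hx, y, hy, hxy, hdx, hdy⟩, h3⟩ := h
  have hmem : ∀ v, v ∈ univ.filter (fun v => ctr (src e) (dst e) v ∈ X) ↔
      ctr (src e) (dst e) v ∈ X := fun v => by simp
  refine ⟨?_, ?_, ?_⟩
  · rintro A ⟨v, hv, hvA⟩ ⟨v', hv', hvA'⟩
    rw [hmem] at hv hv'
    by_cases ha : src e ∈ X
    · by_cases hA : A (src e) ↔ A (dst e)
      · have hAφ : ∀ x, A (ctr (src e) (dst e) x) ↔ A x := by
          intro x
          by_cases hx : x = dst e
          · rw [hx, ctr_b, hA]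
          · rw [ctr_x _ _ _ hx]
        obtain ⟨e', a1, a2, a3⟩ := h1 A ⟨_, hv, (hAφ v).mpr hvA⟩ ⟨_, hv', fun h => hvA' ((hAφ v').mp h)⟩
        refine ⟨e', (hmem _).2 a1, (hmem _).2 a2, fun h => a3 ?_⟩
        simp only [Function.comp]
        rw [hAφ, hAφ]
        exact h
      · exact ⟨e, (hmem _).2 (by rw [ctr_a]; exact ha), (hmem _).2 (by rw [ctr_b]; exact ha), hA⟩
    · have hfix : ∀ z, ctr (src e) (dst e) z ∈ X → ctr (src e) (dst e) z = z := by
        intro z hz
        refine ctr_x _ _ _ fun h => ha ?_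
        rw [h, ctr_b] at hz
        exact hz
      obtain ⟨e', a1, a2, a3⟩ := h1 A ⟨v, by rw [← hfix v hv]; exact hv, hvA⟩
        ⟨v', by rw [← hfix v' hv']; exact hv', hvA'⟩
      simp only [Function.comp] at a1 a2 a3
      refine ⟨e', (hmem _).2 a1, (hmem _).2 a2, fun h => a3 ?_⟩
      rw [hfix _ a1, hfix _ a2]
      exact h
  · -- the branch vertices
    have key : ∀ z w, z ∈ X → z ≠ w → 3 ≤ dg (ctr (src e) (dst e) ∘ src) (ctr (src e) (dst e) ∘ dst) z →
        w ≠ src e → ∃ z', ctr (src e) (dst e) z' = z ∧ 3 ≤ dg src dst z' := by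
      intro z w _ _ hz _
      by_cases hza : z = src e
      · rw [hza] at hz
        rcases dg_end src dst e hne hz with h | h
        · exact ⟨src e, by rw [ctr_a, hza], h⟩
        · exact ⟨dst e, by rw [ctr_b, hza], h⟩
      · obtain ⟨h4, h5⟩ := dg_other src dst _ _ z hza hz
        exact ⟨z, ctr_x _ _ _ h4, h5⟩
    have key' : ∀ z, 3 ≤ dg (ctr (src e) (dst e) ∘ src) (ctr (src e) (dst e) ∘ dst) z →
        ∃ z', ctr (src e) (dst e) z' = z ∧ 3 ≤ dg src dst z' := by
      intro z hz
      by_cases hza : z = src e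
      · rw [hza] at hz
        rcases dg_end src dst e hne hz with h | h
        · exact ⟨src e, by rw [ctr_a, hza], h⟩
        · exact ⟨dst e, by rw [ctr_b, hza], h⟩
      · obtain ⟨h4, h5⟩ := dg_other src dst _ _ z hza hz
        exact ⟨z, ctr_x _ _ _ h4, h5⟩
    obtain ⟨x', hx1, hx2⟩ := key' x hdx
    obtain ⟨y', hy1, hy2⟩ := key' y hdy
    refine ⟨x', (hmem _).2 (by rw [hx1]; exact hx), y', (hmem _).2 (by rw [hy1]; exact hy), ?_,
      hx2, hy2⟩
    rintro rfl
    exact hxy (hx1.symm.trans hy1)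
  · -- the neighbours
    refine h3.trans ?_
    refine le_trans (card_le_card (t := (univ.filter (fun v =>
      v ∉ univ.filter (fun v => ctr (src e) (dst e) v ∈ X) ∧
      ∃ e', (src e' = v ∧ dst e' ∈ univ.filter (fun v => ctr (src e) (dst e) v ∈ X)) ∨
        (dst e' = v ∧ src e' ∈ univ.filter (fun v => ctr (src e) (dst e) v ∈ X)))).image
        (ctr (src e) (dst e))) ?_) card_image_le
    intro v hv
    obtain ⟨-, hvX, e', he'⟩ := mem_filter.1 hv
    rw [mem_image]
    rcases he' with ⟨h4, h5⟩ | ⟨h4, h5⟩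
    · refine ⟨src e', mem_filter.2 ⟨mem_univ _, ?_, e', Or.inl ⟨rfl, (hmem _).2 h5⟩⟩, h4⟩
      rw [hmem]
      intro h
      exact hvX (h4 ▸ h)
    · refine ⟨dst e', mem_filter.2 ⟨mem_univ _, ?_, e', Or.inr ⟨rfl, (hmem _).2 h5⟩⟩, h4⟩
      rw [hmem]
      intro h
      exact hvX (h4 ▸ h)

theorem ccPack (k : ℕ) : CC (V := V) (E := E) (fun src dst => ¬ Pack k src dst) := by
  intro src dst e h hne h'
  apply h
  obtain ⟨P, hP1, hP2⟩ := h'
  refine ⟨fun i => univ.filter (fun v => ctr (src e) (dst e) v ∈ P i), fun i j hij => ?_,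
    fun i => pk_ctr src dst e hne (P i) (hP2 i)⟩
  rw [disjoint_left]
  intro v hv hv'
  rw [mem_filter] at hv hv'
  exact disjoint_left.1 (hP1 i j hij) hv.2 hv'.2

end def1

section graph

variable {V : Type} [Fintype V] [DecidableEq V] {G : SimpleGraph V}

theorem no_triangle (h12 : ∀ (w : V) (c : G.Walk w w), c.IsCycle → 12 ≤ c.length) {x y a : V}
    (hxy : G.Adj x y) (hya : G.Adj y a) (hxa : G.Adj x a) : False := by
  have hq : (SimpleGraph.Walk.cons hxy (SimpleGraph.Walk.cons hya SimpleGraph.Walk.nil)).IsPath := by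
    rw [SimpleGraph.Walk.cons_isPath_iff]
    refine ⟨Ord.edge_path hya, ?_⟩
    simp only [SimpleGraph.Walk.support_cons, SimpleGraph.Walk.support_nil, List.mem_cons,
      List.not_mem_nil, or_false, not_or]
    exact ⟨hxy.ne, hxa.ne⟩
  have e1 := Ord.uniq h12 hq (Ord.edge_path hxa) (by
    simp only [SimpleGraph.Walk.length_cons, SimpleGraph.Walk.length_nil]; omega)
  have := congrArg SimpleGraph.Walk.length e1
  simp only [SimpleGraph.Walk.length_cons, SimpleGraph.Walk.length_nil] at this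
  omega

end graph

section main

variable {V E : Type} [Fintype V] [DecidableEq V] [Fintype E] [DecidableEq E]

/-- **Main step.** -/
theorem flow_of_pack (hc : St_contract) (src dst : E → V) (hcl : ¬ Pack 63 src dst)
    (hbr : Br src dst ∅ ∅) : FlowOn src dst ∅ ∅ := by
  classical
  by_contra hn
  obtain ⟨s, d, hS, hM⟩ := exists_minC (ccPack 63) src dst hcl hbr hn
  obtain ⟨G, hG, h12, h3, hne, hdg⟩ := frame hc hM
  obtain ⟨T, m, hT, hm⟩ := exists_mat h12 (deg3_of h3) hne
  -- the pairs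
  set Q : Finset (Finset V) := T.image (fun x => ({x, m x} : Finset V)) with hQ
  have hQd : ∀ p ∈ Q, ∀ q ∈ Q, p ≠ q → Disjoint p q := by
    intro p hp q hq hpq
    obtain ⟨x, hx, rfl⟩ := mem_image.1 hp
    obtain ⟨y, hy, rfl⟩ := mem_image.1 hq
    rw [disjoint_left]
    intro z hz hz'
    apply hpq
    have h1 : ∀ x ∈ T, z ∈ ({x, m x} : Finset V) → ({x, m x} : Finset V) = {z, m z} := by
      intro x hx hz
      rw [mem_insert, mem_singleton] at hz
      rcases hz with rfl | rfl
      · rfl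
      · rw [(hm x hx).2.1, pair_comm]
    exact (h1 x hx hz).trans (h1 y hy hz').symm
  have hQc : 63 ≤ Q.card := by
    have h1 : T.card ≤ 2 * Q.card := by
      refine card_le_mul_card_image (f := fun x => ({x, m x} : Finset V)) T 2 ?_
      intro p hp
      obtain ⟨x, hx, rfl⟩ := mem_image.1 hp
      refine le_trans (card_le_card (t := {x, m x}) ?_) card_le_two
      intro z hz
      obtain ⟨hz1, hz2⟩ := mem_filter.1 hz
      have h2 : z ∈ ({z, m z} : Finset V) := mem_insert_self _ _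
      have h3 : ({z, m z} : Finset V) = {x, m x} := hz2
      rw [h3] at h2
      exact h2
    omega
  have hP : ∀ p ∈ Q, Pk s d p := by
    intro p hp
    obtain ⟨x, hx, rfl⟩ := mem_image.1 hp
    obtain ⟨-, -, hadj⟩ := hm x hx
    obtain ⟨y, hy⟩ : ∃ y, y = m x := ⟨_, rfl⟩
    rw [← hy] at hadj ⊢
    obtain ⟨hne', e, he⟩ := (hG x y).1 hadj
    refine ⟨?_, ⟨x, mem_insert_self _ _, y, by simp, hadj.ne, hdg x y hadj, hdg y x hadj.symm⟩, ?_⟩
    · rintro A ⟨v, hv, hvA⟩ ⟨v', hv', hvA'⟩
      have h4 : s e ∈ ({x, y} : Finset V) ∧ d e ∈ ({x, y} : Finset V) := by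
        rcases he with ⟨a, b⟩ | ⟨a, b⟩ <;> rw [a, b] <;> simp
      refine ⟨e, h4.1, h4.2, ?_⟩
      rw [mem_insert, mem_singleton] at hv hv'
      rcases he with ⟨a, b⟩ | ⟨a, b⟩ <;> rw [a, b] <;>
        rcases hv with rfl | rfl <;> rcases hv' with rfl | rfl <;> tauto
    · obtain ⟨a, b, ha, hb, hab, ha', hb'⟩ := two_more (pr := y) (h3 x y hadj)
      obtain ⟨a1, b1, ha1, hb1, hab1, ha1', hb1'⟩ := two_more (pr := x) (h3 y x hadj.symm)
      have n1 : a ≠ a1 := fun h => no_triangle h12 hadj (h ▸ ha1) ha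
      have n2 : a ≠ b1 := fun h => no_triangle h12 hadj (h ▸ hb1) ha
      have n3 : b ≠ a1 := fun h => no_triangle h12 hadj (h ▸ ha1) hb
      have n4 : b ≠ b1 := fun h => no_triangle h12 hadj (h ▸ hb1) hb
      have hc4 : ({a, b, a1, b1} : Finset V).card = 4 := by
        rw [card_insert_of_notMem, card_insert_of_notMem, card_insert_of_notMem, card_singleton]
        · simpa using hab1
        · simp only [mem_insert, mem_singleton, not_or]
          exact ⟨n3, n4⟩
        · simp only [mem_insert, mem_singleton, not_or]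
          exact ⟨hab, n1, n2⟩
      rw [← hc4]
      refine card_le_card fun z hz => ?_
      have hed : ∀ u v, G.Adj u v → u ∈ ({x, y} : Finset V) → v ∉ ({x, y} : Finset V) →
          v ∈ univ.filter (fun v => v ∉ ({x, y} : Finset V) ∧
            ∃ e, (s e = v ∧ d e ∈ ({x, y} : Finset V)) ∨ (d e = v ∧ s e ∈ ({x, y} : Finset V))) := by
        intro u v huv hu hv
        obtain ⟨-, e', he'⟩ := (hG u v).1 huv
        refine mem_filter.2 ⟨mem_univ _, hv, e', ?_⟩
        rcases he' with ⟨a, b⟩ | ⟨a, b⟩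
        · right
          exact ⟨b, by rw [a]; exact hu⟩
        · left
          exact ⟨a, by rw [b]; exact hu⟩
      have hx' : x ∈ ({x, y} : Finset V) := mem_insert_self _ _
      have hy' : y ∈ ({x, y} : Finset V) := by simp
      simp only [mem_insert, mem_singleton] at hz
      rcases hz with rfl | rfl | rfl | rfl
      · exact hed x _ ha hx' (by simp only [mem_insert, mem_singleton, not_or]; exact ⟨ha.ne', ha'⟩)
      · exact hed x _ hb hx' (by simp only [mem_insert, mem_singleton, not_or]; exact ⟨hb.ne', hb'⟩)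
      · exact hed y _ ha1 hy' (by simp only [mem_insert, mem_singleton, not_or]; exact ⟨ha1', ha1.ne'⟩)
      · exact hed y _ hb1 hy' (by simp only [mem_insert, mem_singleton, not_or]; exact ⟨hb1', hb1.ne'⟩)
  apply hS
  refine ⟨fun i => (Q.equivFin.symm (Fin.castLE hQc i)).1, fun i j hij => ?_, fun i => ?_⟩
  · refine hQd _ (Q.equivFin.symm _).2 _ (Q.equivFin.symm _).2 fun h => hij ?_
    have h1 := Q.equivFin.symm.injective (Subtype.ext h)
    exact Fin.castLE_injective hQc h1
  · exact hP _ (Q.equivFin.symm _).2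

/-- **Modulo a chain of cycles.** -/
theorem flow_pack_mod (hc : St_contract) (hQ : St_quot) {s d : E → V} {F : Finset E} {r : V → V}
    (hb : Br s d ∅ ∅) (hr : Contr5 s d F r) (h : ¬ Pack 63 (r ∘ s) (r ∘ d)) : FlowOn s d ∅ F :=
  lift_contr hQ hr (flow_of_pack hc _ _ h (Br.map r hb))

end main

end Pool.Agent.Run7.H85.FL
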