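import Pool.Agent.Run7.h335.MF.Mod
import Pool.Agent.H173FL.Radius

set_option autoImplicit false
set_option linter.unusedSectionVars false

/-! # A shortest cycle and the graph far away from it -/

namespace Pool.Agent.Run7.H85.FL

open Finset Pool.Agent.TH676.Z Pool.Agent.Y335.FL Pool.Agent.Y358.IN Pool.Agent.H173FL
open Pool.Agent.N393.AHL Pool.Agent.Run7.h335.MF

section graph

variable {V : Type} [Fintype V] [DecidableEq V] {G : SimpleGraph V}

/-- short paths are unique -/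
theorem uniq_g {g : ℕ} (hg : ∀ (w : V) (c : G.Walk w w), c.IsCycle → g ≤ c.length) {u v : V}
    {p q : G.Walk u v} (hp : p.IsPath) (hq : q.IsPath) (hl : p.length + q.length < g) : p = q := by
  by_contra hne
  obtain ⟨w, _, _, c, hc, hcl⟩ := hp.exists_isCycle_length_le_add_of_ne hq hne
  have := hg w c hc
  omega

theorem append_path {u v w : V} {p : G.Walk u v} {q : G.Walk v w} (hp : p.IsPath) (hq : q.IsPath)
    (hd : ∀ x ∈ p.support, x ∈ q.support → x = v) : (p.append q).IsPath := by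
  rw [SimpleGraph.Walk.isPath_def, SimpleGraph.Walk.support_append]
  have hq' := hq.support_nodup
  rw [← SimpleGraph.Walk.cons_tail_support, List.nodup_cons] at hq'
  refine List.Nodup.append hp.support_nodup hq'.2 ?_
  intro x hx hy
  have := hd x hx (List.mem_of_mem_tail hy)
  subst this
  exact hq'.1 hy

/-- a cyclic sequence -/
structure Cyc (G : SimpleGraph V) (g : ℕ) (f : ZMod g → V) : Prop where
  inj : Function.Injective f
  adj : ∀ i, G.Adj (f i) (f (i + 1))

theorem cyc_of_walk {w : V} (c : G.Walk w w) (hc : c.IsCycle) :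
    ∃ f : ZMod c.length → V, Cyc G c.length f := by
  have h3 := hc.three_le_length
  obtain ⟨g, hgc⟩ : ∃ g, g = c.length := ⟨_, rfl⟩
  rw [← hgc] at h3 ⊢
  have : NeZero g := ⟨by omega⟩
  refine ⟨fun i => c.getVert i.val, ?_, ?_⟩
  · intro i j hij
    have hi : i.val ∈ {i | i ≤ c.length - 1} := by
      have := ZMod.val_lt i
      simp only [Set.mem_ofPred_eq]
      omega
    have hj : j.val ∈ {i | i ≤ c.length - 1} := by
      have := ZMod.val_lt j
      simp only [Set.mem_ofPred_eq]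
      omega
    exact ZMod.val_injective g (hc.getVert_injOn' hi hj hij)
  · intro i
    have hi := ZMod.val_lt i
    have h1 : (i + 1).val = (i.val + 1) % g := by
      rw [ZMod.val_add, ZMod.val_one_eq_one_mod, Nat.mod_eq_of_lt (a := 1) (by omega)]
    have h2 := c.adj_getVert_succ (i := i.val) (by omega)
    show G.Adj (c.getVert i.val) (c.getVert (i + 1).val)
    by_cases h : i.val + 1 < g
    · rw [h1, Nat.mod_eq_of_lt h]
      exact h2
    · have h3 : i.val + 1 = g := by omega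
      rw [h1, h3, Nat.mod_self, c.getVert_zero]
      have h5 : c.getVert g = w := by
        rw [hgc]
        exact c.getVert_length
      rw [h3, h5] at h2
      exact h2

/-- a graph with degrees at least two has a cycle -/
theorem exists_cycle
    (h2 : ∀ x y pr, G.Adj x y → ∃ a, G.Adj x a ∧ a ≠ pr)
    {x y : V} (hxy : G.Adj x y) : ∃ (w : V) (c : G.Walk w w), c.IsCycle := by
  by_contra hno
  push Not at hno
  have huniq : ∀ (u v : V) (p q : G.Walk u v), p.IsPath → q.IsPath → p = q := by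
    intro u v p q hp hq
    by_contra hne
    obtain ⟨w, _, _, c, hc, _⟩ := hp.exists_isCycle_length_le_add_of_ne hq hne
    exact hno w c hc
  have key : ∀ n : ℕ, ∃ v, ∃ p : G.Walk x v, p.IsPath ∧ p.length = n := by
    intro n
    induction n with
    | zero => exact ⟨x, SimpleGraph.Walk.nil, SimpleGraph.Walk.IsPath.nil, rfl⟩
    | succ n ih =>
      obtain ⟨v, p, hp, hl⟩ := ih
      obtain ⟨z, hz⟩ := Ord.nbr hxy p
      obtain ⟨a, ha, h1⟩ := h2 v z p.penultimate hz
      have h4 : a ∉ p.support := by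
        intro hws
        have e := huniq _ _ _ _ (hp.dropUntil hws) (Ord.edge_path ha.symm)
        have e2 : p = (p.takeUntil a hws).concat ha.symm := by
          rw [SimpleGraph.Walk.concat_eq_append, ← e, SimpleGraph.Walk.take_spec]
        apply h1
        rw [e2, SimpleGraph.Walk.penultimate_concat]
      exact ⟨a, p.concat ha, hp.concat h4 ha, by rw [SimpleGraph.Walk.length_concat, hl]⟩
  obtain ⟨v, p, hp, hl⟩ := key (Fintype.card V)
  have := hp.length_lt
  omega

/-- a shortest cycle -/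
theorem exists_cyc (h12 : ∀ (w : V) (c : G.Walk w w), c.IsCycle → 12 ≤ c.length)
    (h2 : ∀ x y pr, G.Adj x y → ∃ a, G.Adj x a ∧ a ≠ pr)
    {x y : V} (hxy : G.Adj x y) :
    ∃ g, 12 ≤ g ∧ (∀ (w : V) (c : G.Walk w w), c.IsCycle → g ≤ c.length) ∧
      ∃ f : ZMod g → V, Cyc G g f := by
  classical
  have hex : ∃ n, ∃ (w : V) (c : G.Walk w w), c.IsCycle ∧ c.length = n := by
    obtain ⟨w, c, hc⟩ := exists_cycle h2 hxy
    exact ⟨_, w, c, hc, rfl⟩
  obtain ⟨w, c, hc, hl⟩ := Nat.find_spec hex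
  refine ⟨c.length, h12 w c hc, fun w' c' hc' => ?_, cyc_of_walk c hc⟩
  rw [hl]
  exact Nat.find_min' hex ⟨w', c', hc', rfl⟩

/-- paths along the cycle -/
theorem Cyc.arc {g : ℕ} {f : ZMod g → V} (hf : Cyc G g f) (a : ZMod g) (m : ℕ) (hm : m < g) :
    ∃ p : G.Walk (f a) (f (a + m)), p.IsPath ∧ p.length = m ∧
      ∀ u ∈ p.support, ∃ i : ℕ, i ≤ m ∧ u = f (a + i) := by
  induction m with
  | zero =>
    rw [Nat.cast_zero, add_zero]
    refine ⟨SimpleGraph.Walk.nil, SimpleGraph.Walk.IsPath.nil, rfl, fun u hu => ⟨0, le_rfl, ?_⟩⟩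
    rw [SimpleGraph.Walk.support_nil, List.mem_singleton] at hu
    rw [hu, Nat.cast_zero, add_zero]
  | succ m ih =>
    obtain ⟨p, hp, hl, hs⟩ := ih (by omega)
    have hadj : G.Adj (f (a + m)) (f (a + (m + 1 : ℕ))) := by
      have := hf.adj (a + m)
      rw [Nat.cast_add, Nat.cast_one, ← add_assoc]
      exact this
    have hnot : f (a + (m + 1 : ℕ)) ∉ p.support := by
      intro h
      obtain ⟨i, hi, he⟩ := hs _ h
      have h1 := add_left_cancel (hf.inj he)
      rw [ZMod.natCast_eq_natCast_iff', Nat.mod_eq_of_lt hm, Nat.mod_eq_of_lt (by omega)] at h1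
      omega
    refine ⟨p.concat hadj, hp.concat hnot hadj, by rw [SimpleGraph.Walk.length_concat, hl], ?_⟩
    intro u hu
    rw [SimpleGraph.Walk.support_concat, List.mem_append, List.mem_singleton] at hu
    rcases hu with hu | hu
    · obtain ⟨i, hi, he⟩ := hs _ hu
      exact ⟨i, by omega, he⟩
    · exact ⟨m + 1, le_rfl, hu⟩

/-- a path inside `S` -/
def Arc (G : SimpleGraph V) (S : Finset V) (m : ℕ) (c c' : V) : Prop :=
  ∃ q : G.Walk c c', q.IsPath ∧ q.length ≤ m ∧ ∀ u ∈ q.support, u ∈ S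

/-- a path which meets `S` only in its first vertex -/
def Leg (G : SimpleGraph V) (S : Finset V) (k : ℕ) (c v pr : V) : Prop :=
  c ∈ S ∧ ∃ p : G.Walk c v, p.IsPath ∧ p.length = k ∧ p.penultimate = pr ∧
    ∀ u ∈ p.support, u ∈ S → u = c

variable {g : ℕ} {S : Finset V}

theorem join (hg : ∀ (w : V) (c : G.Walk w w), c.IsCycle → g ≤ c.length) {m k k' : ℕ}
    {c c' v pr pr' : V} (h : Leg G S k c v pr) (h' : Leg G S k' c' v pr') (ha : Arc G S m c' c)
    (hl : m + k + k' < g) : c = c' ∧ k = k' ∧ pr = pr' := by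
  obtain ⟨hc, p, hp, hpl, hpp, hps⟩ := h
  obtain ⟨hc', p', hp', hpl', hpp', hps'⟩ := h'
  obtain ⟨q, hq, hql, hqs⟩ := ha
  have hqp : (q.append p).IsPath := append_path hq hp (fun x hx hx' => hps x hx' (hqs x hx))
  have e := uniq_g hg hqp hp' (by rw [SimpleGraph.Walk.length_append]; omega)
  have hcc : c = c' := by
    apply hps' c ?_ hc
    rw [← e, SimpleGraph.Walk.mem_support_append_iff]
    exact Or.inl q.end_mem_support
  subst hcc
  have e2 := uniq_g hg hp hp' (by omega)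
  subst e2
  exact ⟨rfl, hpl.symm.trans hpl', hpp.symm.trans hpp'⟩

theorem Leg.notMem {k : ℕ} {c v pr : V} (h : Leg G S k c v pr) (hk : 1 ≤ k) : v ∉ S := by
  intro hv
  obtain ⟨hc, p, hp, hpl, hpp, hps⟩ := h
  have hvc := hps v p.end_mem_support hv
  subst hvc
  rw [SimpleGraph.Walk.isPath_iff_nil] at hp
  rw [← SimpleGraph.Walk.length_eq_zero_iff] at hp
  omega

theorem leg_one {c x : V} (hc : c ∈ S) (hx : x ∉ S) (h : G.Adj c x) : Leg G S 1 c x c := by
  refine ⟨hc, SimpleGraph.Walk.cons h SimpleGraph.Walk.nil, Ord.edge_path h, rfl, ?_, ?_⟩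
  · have : SimpleGraph.Walk.cons h SimpleGraph.Walk.nil =
      (SimpleGraph.Walk.nil : G.Walk c c).concat h := rfl
    rw [this, SimpleGraph.Walk.penultimate_concat]
  · intro u hu huS
    simp only [SimpleGraph.Walk.support_cons, SimpleGraph.Walk.support_nil, List.mem_cons,
      List.not_mem_nil, or_false] at hu
    rcases hu with hu | hu
    · exact hu
    · exact absurd (hu ▸ huS) hx

theorem Leg.ext (h12 : ∀ (w : V) (c : G.Walk w w), c.IsCycle → 12 ≤ c.length) {k : ℕ}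
    {c v pr w : V} (h : Leg G S k c v pr) (hk : k ≤ 10) (hw : G.Adj v w) (hwS : w ∉ S)
    (hne : w ≠ pr) : Leg G S (k + 1) c w v := by
  obtain ⟨hc, p, hp, hpl, hpp, hps⟩ := h
  have h4 := ext_path h12 p hp (by omega) hw (by rw [hpp]; exact hne)
  refine ⟨hc, p.concat hw, hp.concat h4 hw, by rw [SimpleGraph.Walk.length_concat, hpl],
    SimpleGraph.Walk.penultimate_concat _ _, ?_⟩
  intro u hu huS
  rw [SimpleGraph.Walk.support_concat, List.mem_append, List.mem_singleton] at hu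
  rcases hu with hu | hu
  · exact hps u hu huS
  · exact absurd (hu ▸ huS) hwS

theorem Leg.out (hg : ∀ (w : V) (c : G.Walk w w), c.IsCycle → g ≤ c.length)
    (harc : ∀ c ∈ S, ∀ c' ∈ S, Arc G S (g / 2) c c') {k : ℕ} {c v pr w : V}
    (h : Leg G S k c v pr) (hk : 1 ≤ k) (hk' : g / 2 + k + 1 < g) (hw : G.Adj v w)
    (hne : w ≠ pr) : w ∉ S := by
  intro hwS
  have h1 := leg_one hwS (h.notMem hk) hw.symm
  exact hne (join hg h h1 (harc w hwS c h.1) (by omega)).2.2.symm

/-- arcs of the cycle -/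
theorem Cyc.arc_half {f : ZMod g → V} (hf : Cyc G g f) (h12 : 12 ≤ g) (hS : ∀ v, v ∈ S ↔ ∃ i, v = f i) :
    ∀ c ∈ S, ∀ c' ∈ S, Arc G S (g / 2) c c' := by
  have : NeZero g := ⟨by omega⟩
  intro c hc c' hc'
  obtain ⟨a, rfl⟩ := (hS c).1 hc
  obtain ⟨b, rfl⟩ := (hS c').1 hc'
  obtain ⟨m, hm⟩ : ∃ m, m = (b - a).val := ⟨_, rfl⟩
  have hmg : m < g := by rw [hm]; exact ZMod.val_lt _
  have hb : b = a + (m : ℕ) := by
    rw [hm, ZMod.natCast_zmod_val]
    ring
  rw [hb]
  by_cases h : 2 * m ≤ g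
  · obtain ⟨p, hp, hl, hs⟩ := hf.arc a m hmg
    refine ⟨p, hp, by omega, fun u hu => ?_⟩
    obtain ⟨i, _, hi⟩ := hs u hu
    exact (hS u).2 ⟨_, hi⟩
  · have h2 := hf.arc (a + m) (g - m) (by omega)
    have h1 : a + (m : ZMod g) + ((g - m : ℕ) : ZMod g) = a := by
      rw [add_assoc, ← Nat.cast_add, Nat.add_sub_cancel' hmg.le, ZMod.natCast_self, add_zero]
    rw [h1] at h2
    obtain ⟨p, hp, hl, hs⟩ := h2
    refine ⟨p.reverse, hp.reverse, by rw [SimpleGraph.Walk.length_reverse]; omega, fun u hu => ?_⟩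
    rw [SimpleGraph.Walk.support_reverse, List.mem_reverse] at hu
    obtain ⟨i, _, hi⟩ := hs u hu
    exact (hS u).2 ⟨_, hi⟩

/-- arcs between the first six vertices -/
theorem Cyc.arc_five {f : ZMod g → V} (hf : Cyc G g f) (h12 : 12 ≤ g) (hS : ∀ v, v ∈ S ↔ ∃ i, v = f i)
    (i j : ℕ) (hi : i < 6) (hj : j < 6) : Arc G S 5 (f i) (f j) := by
  have key : ∀ i j : ℕ, i ≤ j → j < 6 → ∃ q : G.Walk (f i) (f j), q.IsPath ∧ q.length ≤ 5 ∧
      ∀ u ∈ q.support, u ∈ S := by
    intro i j hij hj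
    obtain ⟨m, rfl⟩ := Nat.exists_eq_add_of_le hij
    rw [Nat.cast_add]
    obtain ⟨p, hp, hl, hs⟩ := hf.arc (i : ZMod g) m (by omega)
    refine ⟨p, hp, by omega, fun u hu => ?_⟩
    obtain ⟨k, _, hk⟩ := hs u hu
    exact (hS u).2 ⟨_, hk⟩
  rcases le_total i j with h | h
  · exact key i j h hj
  · obtain ⟨q, hq, hl, hs⟩ := key j i h hi
    refine ⟨q.reverse, hq.reverse, by rw [SimpleGraph.Walk.length_reverse]; exact hl, fun u hu => ?_⟩
    rw [SimpleGraph.Walk.support_reverse, List.mem_reverse] at hu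
    exact hs u hu

/-- the cycle has no chords -/
theorem Cyc.chord (hg : ∀ (w : V) (c : G.Walk w w), c.IsCycle → g ≤ c.length)
    {f : ZMod g → V} (hf : Cyc G g f) (h12 : 12 ≤ g) {a b : ZMod g} (h : G.Adj (f a) (f b)) :
    b = a + 1 ∨ b = a - 1 := by
  have : NeZero g := ⟨by omega⟩
  obtain ⟨m, hm⟩ : ∃ m, m = (b - a).val := ⟨_, rfl⟩
  have hmg : m < g := by rw [hm]; exact ZMod.val_lt _
  have hb : b = a + (m : ℕ) := by
    rw [hm, ZMod.natCast_zmod_val]
    ring
  rw [hb] at h ⊢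
  obtain ⟨p, hp, hl, hs⟩ := hf.arc a m hmg
  by_cases hm1 : m + 1 < g
  · left
    have e := uniq_g hg hp (Ord.edge_path h) (by
      simp only [SimpleGraph.Walk.length_cons, SimpleGraph.Walk.length_nil]; omega)
    rw [e] at hl
    simp only [SimpleGraph.Walk.length_cons, SimpleGraph.Walk.length_nil] at hl
    rw [← hl, Nat.cast_add, Nat.cast_zero, zero_add, Nat.cast_one]
  · right
    have h1 : m + 1 = g := by omega
    have h2 : ((m : ℕ) : ZMod g) + 1 = 0 := by
      have := ZMod.natCast_self g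
      rw [← Nat.cast_one, ← Nat.cast_add, h1]
      exact this
    rw [eq_neg_of_add_eq_zero_left h2]
    ring

/-- a neighbour outside of the cycle -/
theorem Cyc.outside (hg : ∀ (w : V) (c : G.Walk w w), c.IsCycle → g ≤ c.length)
    {f : ZMod g → V} (hf : Cyc G g f) (h12 : 12 ≤ g) (hS : ∀ v, v ∈ S ↔ ∃ i, v = f i)
    (a : ZMod g)
    (h3 : ∃ x y z, G.Adj (f a) x ∧ G.Adj (f a) y ∧ G.Adj (f a) z ∧ x ≠ y ∧ x ≠ z ∧ y ≠ z) :
    ∃ x, G.Adj (f a) x ∧ x ∉ S := by
  by_contra hno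
  push Not at hno
  obtain ⟨x, y, z, hx, hy, hz, hxy, hxz, hyz⟩ := h3
  have key : ∀ x, G.Adj (f a) x → x = f (a + 1) ∨ x = f (a - 1) := by
    intro x hx
    obtain ⟨i, rfl⟩ := (hS x).1 (hno x hx)
    rcases hf.chord hg h12 hx with h | h
    · exact Or.inl (by rw [h])
    · exact Or.inr (by rw [h])
  rcases key x hx with h1 | h1 <;> rcases key y hy with h2 | h2 <;> rcases key z hz with h4 | h4 <;>
    first
    | exact hxy (h1.trans h2.symm)
    | exact hxz (h1.trans h4.symm)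
    | exact hyz (h2.trans h4.symm)

open Classical in
/-- the ends of the legs of length three -/
noncomputable def U3 (G : SimpleGraph V) (S : Finset V) (c : V) : Finset V :=
  univ.filter (fun u => ∃ pr, Leg G S 3 c u pr)

theorem mem_U3 {c u : V} : u ∈ U3 G S c ↔ ∃ pr, Leg G S 3 c u pr := by
  classical
  unfold U3
  rw [mem_filter]
  exact ⟨fun h => h.2, fun h => ⟨mem_univ _, h⟩⟩

theorem U3_card (hg : ∀ (w : V) (c : G.Walk w w), c.IsCycle → g ≤ c.length) (h12 : 12 ≤ g)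
    (h3 : ∀ x y, G.Adj x y → ∃ a b c, G.Adj x a ∧ G.Adj x b ∧ G.Adj x c ∧ a ≠ b ∧ a ≠ c ∧ b ≠ c)
    (harc : ∀ c ∈ S, ∀ c' ∈ S, Arc G S (g / 2) c c') {c x : V} (hc : c ∈ S) (hx : x ∉ S)
    (hcx : G.Adj c x) : 4 ≤ (U3 G S c).card := by
  have h12' : ∀ (w : V) (c : G.Walk w w), c.IsCycle → 12 ≤ c.length :=
    fun w c hc => h12.trans (hg w c hc)
  have L1 := leg_one hc hx hcx
  have nil0 : Arc G S 0 c c := by
    refine ⟨SimpleGraph.Walk.nil, SimpleGraph.Walk.IsPath.nil, by simp, fun u hu => ?_⟩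
    rw [SimpleGraph.Walk.support_nil, List.mem_singleton] at hu
    rw [hu]
    exact hc
  obtain ⟨a, b, ha, hb, hab, hac, hbc⟩ := two_more (pr := c) (h3 x c hcx.symm)
  have La := L1.ext h12' (by norm_num) ha (L1.out hg harc (by norm_num) (by omega) ha hac) hac
  have Lb := L1.ext h12' (by norm_num) hb (L1.out hg harc (by norm_num) (by omega) hb hbc) hbc
  obtain ⟨a1, a2, ha1, ha2, ha12, ha1x, ha2x⟩ := two_more (pr := x) (h3 a x ha.symm)
  obtain ⟨b1, b2, hb1, hb2, hb12, hb1x, hb2x⟩ := two_more (pr := x) (h3 b x hb.symm)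
  have La1 := La.ext h12' (by norm_num) ha1 (La.out hg harc (by norm_num) (by omega) ha1 ha1x) ha1x
  have La2 := La.ext h12' (by norm_num) ha2 (La.out hg harc (by norm_num) (by omega) ha2 ha2x) ha2x
  have Lb1 := Lb.ext h12' (by norm_num) hb1 (Lb.out hg harc (by norm_num) (by omega) hb1 hb1x) hb1x
  have Lb2 := Lb.ext h12' (by norm_num) hb2 (Lb.out hg harc (by norm_num) (by omega) hb2 hb2x) hb2x
  have key : ∀ u u', Leg G S 3 c u a → Leg G S 3 c u' b → u ≠ u' := by
    rintro u _ h h' rfl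
    exact hab (join hg h h' nil0 (by omega)).2.2
  have hc4 : ({a1, a2, b1, b2} : Finset V).card = 4 := by
    rw [card_insert_of_notMem, card_insert_of_notMem, card_insert_of_notMem, card_singleton]
    · simpa using hb12
    · simp only [mem_insert, mem_singleton, not_or]
      exact ⟨key _ _ La2 Lb1, key _ _ La2 Lb2⟩
    · simp only [mem_insert, mem_singleton, not_or]
      exact ⟨ha12, key _ _ La1 Lb1, key _ _ La1 Lb2⟩
  rw [← hc4]
  refine card_le_card fun z hz => ?_
  rw [mem_U3]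
  simp only [mem_insert, mem_singleton] at hz
  rcases hz with rfl | rfl | rfl | rfl
  · exact ⟨_, La1⟩
  · exact ⟨_, La2⟩
  · exact ⟨_, Lb1⟩
  · exact ⟨_, Lb2⟩

/-- the edges inside a cycle -/
theorem sum_cyc [DecidableRel G.Adj] {K : SimpleGraph V} (hle : ∀ x y, K.Adj x y → G.Adj x y)
    (h12 : 12 ≤ g) {f : ZMod g → V} (hf : Cyc K g f) (hS : ∀ v, v ∈ S ↔ ∃ i, v = f i) :
    2 * S.card ≤ ∑ x ∈ S, (G.neighborFinset x ∩ S).card := by
  rw [mul_comm, ← smul_eq_mul, ← sum_const]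
  refine sum_le_sum fun x hx => ?_
  obtain ⟨a, rfl⟩ := (hS x).1 hx
  have h1 : f (a + 1) ≠ f (a - 1) := by
    intro h
    have h2 := hf.inj h
    have h4 : ((2 : ℕ) : ZMod g) = ((0 : ℕ) : ZMod g) := by
      push_cast
      linear_combination h2
    rw [ZMod.natCast_eq_natCast_iff', Nat.mod_eq_of_lt (by omega), Nat.mod_eq_of_lt (by omega)] at h4
    omega
  rw [← card_pair h1]
  refine card_le_card fun z hz => ?_
  rw [mem_inter, SimpleGraph.mem_neighborFinset]
  simp only [mem_insert, mem_singleton] at hz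
  rcases hz with rfl | rfl
  · exact ⟨hle _ _ (hf.adj a), (hS _).2 ⟨_, rfl⟩⟩
  · refine ⟨?_, (hS _).2 ⟨_, rfl⟩⟩
    have := hf.adj (a - 1)
    rw [sub_add_cancel] at this
    exact (hle _ _ this).symm

/-- the vertices with a neighbour which have distance at least two from `S` -/
def Far (G : SimpleGraph V) (S : Finset V) (v : V) : Prop :=
  (∃ y, G.Adj v y) ∧ v ∉ S ∧ ∀ c ∈ S, ¬ G.Adj c v

/-- **The edges far away from the cycle.** -/
theorem sum_far [DecidableRel G.Adj]
    (hg : ∀ (w : V) (c : G.Walk w w), c.IsCycle → g ≤ c.length) (h12 : 12 ≤ g)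
    (h3 : ∀ x y, G.Adj x y → ∃ a b c, G.Adj x a ∧ G.Adj x b ∧ G.Adj x c ∧ a ≠ b ∧ a ≠ c ∧ b ≠ c)
    {f : ZMod g → V} (hf : Cyc G g f) (hS : ∀ v, v ∈ S ↔ ∃ i, v = f i) {B : Finset V}
    (hB : ∀ v, v ∈ B ↔ Far G S v) :
    (∀ w ∈ B, 2 ≤ (G.neighborFinset w ∩ B).card) ∧
      2 * (B.card + 12) ≤ ∑ x ∈ B, (G.neighborFinset x ∩ B).card := by
  classical
  have : NeZero g := ⟨by omega⟩
  have h12' : ∀ (w : V) (c : G.Walk w w), c.IsCycle → 12 ≤ c.length :=
    fun w c hc => h12.trans (hg w c hc)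
  have harc := hf.arc_half h12 hS
  have hout : ∀ w ∈ B, ∀ y, G.Adj w y → y ∉ B → ∃ c, Leg G S 2 c w y := by
    intro w hw y hy hyB
    obtain ⟨-, hwS, hwN⟩ := (hB w).1 hw
    have hyS : y ∉ S := fun h => hwN y h hy.symm
    have : ∃ c ∈ S, G.Adj c y := by
      by_contra hno
      push Not at hno
      exact hyB ((hB y).2 ⟨⟨w, hy.symm⟩, hyS, hno⟩)
    obtain ⟨c, hc, hcy⟩ := this
    refine ⟨c, (leg_one hc hyS hcy).ext h12' (by norm_num) hy.symm hwS ?_⟩
    rintro rfl
    exact hwS hc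
  have hdeg : ∀ w ∈ B, 2 ≤ (G.neighborFinset w ∩ B).card := by
    intro w hw
    have h4 := deg3_of h3 w _ ((hB w).1 hw).1.choose_spec
    rw [← G.card_neighborFinset_eq_degree] at h4
    have h5 : (G.neighborFinset w \ B).card ≤ 1 := by
      rw [card_le_one]
      intro y hy y' hy'
      rw [mem_sdiff, SimpleGraph.mem_neighborFinset] at hy hy'
      obtain ⟨c, hc⟩ := hout w hw y hy.1 hy.2
      obtain ⟨c', hc'⟩ := hout w hw y' hy'.1 hy'.2
      exact (join hg hc hc' (harc c' hc'.1 c hc.1) (by omega)).2.2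
    have h6 := card_sdiff_add_card_inter (G.neighborFinset w) B
    omega
  refine ⟨hdeg, ?_⟩
  have hU3B : ∀ c u, u ∈ U3 G S c → u ∈ B ∧ 3 ≤ (G.neighborFinset u ∩ B).card := by
    intro c u hu
    obtain ⟨pr, hL⟩ := mem_U3.1 hu
    have huS := hL.notMem (by norm_num)
    have hadj : ∃ y, G.Adj u y := by
      obtain ⟨hc, p, -⟩ := hL
      obtain ⟨i, rfl⟩ := (hS c).1 hc
      exact Ord.nbr (hf.adj i) p
    have huB : u ∈ B := by
      refine (hB u).2 ⟨hadj, huS, fun c' hc' h => ?_⟩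
      have := (join hg hL (leg_one hc' huS h) (harc c' hc' c hL.1) (by omega)).2.1
      omega
    refine ⟨huB, ?_⟩
    have h4 := deg3_of h3 u _ hadj.choose_spec
    rw [← G.card_neighborFinset_eq_degree] at h4
    refine h4.trans (card_le_card fun y hy => mem_inter.2 ⟨hy, ?_⟩)
    rw [SimpleGraph.mem_neighborFinset] at hy
    by_contra hyB
    obtain ⟨c', hc'⟩ := hout u huB y hy hyB
    have := (join hg hL hc' (harc c' hc'.1 c hL.1) (by omega)).2.1
    omega
  obtain ⟨D, hD⟩ : ∃ D : Finset V, D = (range 6).biUnion (fun i => U3 G S (f (i : ℕ))) := ⟨_, rfl⟩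
  have hDB : D ⊆ B := by
    intro u hu
    rw [hD, mem_biUnion] at hu
    obtain ⟨i, -, hi⟩ := hu
    exact (hU3B _ u hi).1
  have hD24 : 24 ≤ D.card := by
    rw [hD, card_biUnion]
    · refine le_trans (le_of_eq ?_) (card_nsmul_le_sum (range 6) _ 4 fun i _ => ?_)
      · simp
      · obtain ⟨x, hx, hxS⟩ := hf.outside hg h12 hS ((i : ℕ) : ZMod g) (h3 _ _ (hf.adj _))
        exact U3_card hg h12 h3 harc ((hS _).2 ⟨_, rfl⟩) hxS hx
    · intro i hi j hj hij
      refine Finset.disjoint_left.2 ?_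
      intro u hu hu'
      have hi := mem_range.1 (mem_coe.1 hi)
      have hj := mem_range.1 (mem_coe.1 hj)
      obtain ⟨pr, h1⟩ := mem_U3.1 hu
      obtain ⟨pr', h2⟩ := mem_U3.1 hu'
      have h4 := (join hg h1 h2 (hf.arc_five h12 hS j i hj hi) (by omega)).1
      have h5 := hf.inj h4
      rw [ZMod.natCast_eq_natCast_iff', Nat.mod_eq_of_lt (by omega),
        Nat.mod_eq_of_lt (by omega)] at h5
      exact hij h5
  have hsum : ∑ x ∈ B, (2 + if x ∈ D then 1 else 0) ≤ ∑ x ∈ B, (G.neighborFinset x ∩ B).card := by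
    refine sum_le_sum fun x hx => ?_
    by_cases hxD : x ∈ D
    · rw [if_pos hxD]
      rw [hD, mem_biUnion] at hxD
      obtain ⟨i, -, hi⟩ := hxD
      exact (hU3B _ x hi).2
    · rw [if_neg hxD]
      exact hdeg x hx
  refine le_trans ?_ hsum
  rw [sum_add_distrib, sum_const, smul_eq_mul, ← card_filter]
  have h7 : B.filter (fun x => x ∈ D) = D := by
    ext x
    rw [mem_filter]
    exact ⟨fun h => h.2, fun h => ⟨hDB h, h⟩⟩
  rw [h7]
  omega

end graph

end Pool.Agent.Run7.H85.FL
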