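import Pool.Agent.Run7.h85.FL.AntiG

set_option autoImplicit false
set_option linter.unusedSectionVars false

/-! # Three anticomplete cycles -/

namespace Pool.Agent.Run7.H85.FL

open Finset Pool.Agent.TH676.Z Pool.Agent.Y335.FL Pool.Agent.Y358.IN Pool.Agent.H173FL
open Pool.Agent.N393.AHL Pool.Agent.Run7.h335.MF

section graph

variable {V : Type} [Fintype V] [DecidableEq V] {G : SimpleGraph V} {g : ℕ} {S : Finset V}

theorem Arc.symm {m : ℕ} {c c' : V} (h : Arc G S m c c') : Arc G S m c' c := by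
  obtain ⟨q, hq, hl, hs⟩ := h
  refine ⟨q.reverse, hq.reverse, by rw [SimpleGraph.Walk.length_reverse]; exact hl, fun u hu => ?_⟩
  rw [SimpleGraph.Walk.support_reverse, List.mem_reverse] at hu
  exact hs u hu

theorem Arc.mono {m m' : ℕ} (hm : m ≤ m') {c c' : V} (h : Arc G S m c c') : Arc G S m' c c' := by
  obtain ⟨q, hq, hl, hs⟩ := h
  exact ⟨q, hq, hl.trans hm, hs⟩

theorem Cyc.arcn {f : ZMod g → V} (hf : Cyc G g f) (hS : ∀ v, v ∈ S ↔ ∃ i, v = f i)
    (a : ZMod g) (n : ℕ) (hn : n < g) : Arc G S n (f a) (f (a + n)) := by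
  obtain ⟨p, hp, hl, hs⟩ := hf.arc a n hn
  refine ⟨p, hp, hl.le, fun u hu => ?_⟩
  obtain ⟨i, _, hi⟩ := hs u hu
  exact (hS u).2 ⟨_, hi⟩

theorem Far.leg (h12 : ∀ (w : V) (c : G.Walk w w), c.IsCycle → 12 ≤ c.length) {w y : V}
    (hw : Far G S w) (hy : G.Adj w y) (hyF : ¬ Far G S y) : ∃ c, Leg G S 2 c w y := by
  have hyS : y ∉ S := fun h => hw.2.2 y h hy.symm
  have : ∃ c ∈ S, G.Adj c y := by
    by_contra hno
    push Not at hno
    exact hyF ⟨⟨w, hy.symm⟩, hyS, hno⟩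
  obtain ⟨c, hc, hcy⟩ := this
  refine ⟨c, (leg_one hc hyS hcy).ext h12 (by norm_num) hy.symm hw.2.1 ?_⟩
  rintro rfl
  exact hw.2.1 hc

section

variable (hg : ∀ (w : V) (c : G.Walk w w), c.IsCycle → g ≤ c.length) (h12 : 12 ≤ g)
  (harc : ∀ c ∈ S, ∀ c' ∈ S, Arc G S (g / 2) c c')

include hg h12

theorem le12 : ∀ (w : V) (c : G.Walk w w), c.IsCycle → 12 ≤ c.length :=
  fun w c hc => h12.trans (hg w c hc)

include harc

theorem far_one {w y y' : V} (hw : Far G S w) (hy : G.Adj w y) (hyF : ¬ Far G S y)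
    (hy' : G.Adj w y') (hyF' : ¬ Far G S y') : y = y' := by
  obtain ⟨c, hc⟩ := hw.leg (le12 hg h12) hy hyF
  obtain ⟨c', hc'⟩ := hw.leg (le12 hg h12) hy' hyF'
  exact (join hg hc hc' (harc c' hc'.1 c hc.1) (by omega)).2.2

theorem far_ind {w w' y y' : V} (hw : Far G S w) (hw' : Far G S w') (h : G.Adj w w')
    (hy : G.Adj w y) (hyF : ¬ Far G S y) (hy' : G.Adj w' y') (hyF' : ¬ Far G S y') : False := by
  obtain ⟨c, hc⟩ := hw.leg (le12 hg h12) hy hyF
  obtain ⟨c', hc'⟩ := hw'.leg (le12 hg h12) hy' hyF'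
  have L3 : Leg G S 3 c w' w := hc.ext (le12 hg h12) (by norm_num) h hw'.2.1 (by
    rintro rfl
    exact hyF hw')
  have := (join hg L3 hc' (harc c' hc'.1 c hc.1) (by omega)).2.1
  omega

end

section

variable (hg : ∀ (w : V) (c : G.Walk w w), c.IsCycle → g ≤ c.length) (h12 : 12 ≤ g)
  {f : ZMod g → V} (hf : Cyc G g f) (hS : ∀ v, v ∈ S ↔ ∃ i, v = f i)

include hg h12 hf hS

theorem near {c c' z w w' : V} (h : Leg G S 3 c z w) (h' : Leg G S 3 c' z w') (hne : w ≠ w') :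
    ∀ b ∈ S, Arc G S 3 b c ∨ Arc G S 3 b c' := by
  have : NeZero g := ⟨by omega⟩
  have rep : ∀ (a b : ZMod g), ∃ m : ℕ, m < g ∧ b = a + (m : ℕ) := by
    intro a b
    refine ⟨(b - a).val, ZMod.val_lt _, ?_⟩
    rw [ZMod.natCast_zmod_val]
    ring
  obtain ⟨a, ha⟩ := (hS c).1 h.1
  obtain ⟨a', ha'⟩ := (hS c').1 h'.1
  obtain ⟨m, hmg, hm⟩ := rep a a'
  rw [hm] at ha'
  have hback : ∀ n : ℕ, n ≤ g → a + (n : ZMod g) + ((g - n : ℕ) : ZMod g) = a := by
    intro n hn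
    rw [add_assoc, ← Nat.cast_add, Nat.add_sub_cancel' hn, ZMod.natCast_self, add_zero]
  have h1 : ¬ m + 6 < g := by
    intro h2
    have h3 := (hf.arcn hS a m hmg).symm
    rw [← ha, ← ha'] at h3
    exact hne (join hg h h' h3 (by omega)).2.2
  have h2 : m ≤ 6 := by
    by_contra h2
    have h3 := hf.arcn hS (a + m) (g - m) (by omega)
    rw [hback m hmg.le, ← ha, ← ha'] at h3
    exact hne (join hg h h' h3 (by omega)).2.2
  have hg12 : g = 12 := by omega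
  have hm6 : m = 6 := by omega
  subst hm6
  intro b hb
  obtain ⟨e, he⟩ := (hS b).1 hb
  obtain ⟨n, hng, hn⟩ := rep a e
  rw [hn] at he
  by_cases n1 : n ≤ 3
  · left
    have h3 := (hf.arcn hS a n hng).symm
    rw [← ha, ← he] at h3
    exact h3.mono n1
  by_cases n2 : n ≤ 6
  · right
    have h3 := hf.arcn hS (a + n) (6 - n) (by omega)
    have h4 : a + (n : ZMod g) + ((6 - n : ℕ) : ZMod g) = a + ((6 : ℕ) : ZMod g) := by
      rw [add_assoc, ← Nat.cast_add, Nat.add_sub_cancel' n2]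
    rw [h4, ← ha', ← he] at h3
    exact h3.mono (by omega)
  by_cases n3 : n ≤ 9
  · right
    have h3 := (hf.arcn hS (a + ((6 : ℕ) : ZMod g)) (n - 6) (by omega)).symm
    have h4 : a + ((6 : ℕ) : ZMod g) + ((n - 6 : ℕ) : ZMod g) = a + (n : ZMod g) := by
      rw [add_assoc, ← Nat.cast_add, Nat.add_sub_cancel' (by omega)]
    rw [h4, ← ha', ← he] at h3
    exact h3.mono (by omega)
  · left
    have h3 := hf.arcn hS (a + n) (g - n) (by omega)
    rw [hback n hng.le, ← ha, ← he] at h3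
    exact h3.mono (by omega)

theorem third {c c' z w w' : V} (h : Leg G S 3 c z w) (h' : Leg G S 3 c' z w') (hne : w ≠ w')
    {c3 w3 : V} (h3 : Leg G S 3 c3 z w3) : w3 = w ∨ w3 = w' := by
  rcases near hg h12 hf hS h h' hne c3 h3.1 with ha | ha
  · exact Or.inl (join hg h h3 ha (by omega)).2.2.symm
  · exact Or.inr (join hg h' h3 ha (by omega)).2.2.symm

theorem fourth {c c' z w w' : V} (h : Leg G S 3 c z w) (h' : Leg G S 3 c' z w') (hne : w ≠ w')
    {v : V} (hzv : G.Adj z v) (hv : v ≠ w) (hv' : v ≠ w') (hvS : v ∉ S) {k : ℕ} {c3 pr : V}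
    (hk : k ≤ 4) (h3 : Leg G S k c3 v pr) : k = 4 ∧ pr = z := by
  have L := h.ext (le12 hg h12) (by norm_num) hzv hvS hv
  have L' := h'.ext (le12 hg h12) (by norm_num) hzv hvS hv'
  rcases near hg h12 hf hS h h' hne c3 h3.1 with ha | ha
  · obtain ⟨-, h1, h2⟩ := join hg L h3 ha (by omega)
    exact ⟨h1.symm, h2.symm⟩
  · obtain ⟨-, h1, h2⟩ := join hg L' h3 ha (by omega)
    exact ⟨h1.symm, h2.symm⟩

end

end graph

end Pool.Agent.Run7.H85.FL
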