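import Pool.Agent.Run7.h85.FL.AntiH

set_option autoImplicit false
set_option linter.unusedSectionVars false

/-! # Three anticomplete cycles: the main counting argument -/

namespace Pool.Agent.Run7.H85.FL

open Finset Pool.Agent.TH676.Z Pool.Agent.Y335.FL Pool.Agent.Y358.IN Pool.Agent.H173FL
open Pool.Agent.N393.AHL Pool.Agent.Run7.h335.MF

section graph

variable {V : Type} [Fintype V] [DecidableEq V] {G : SimpleGraph V}

/-- the subgraph induced by `B` -/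
def sub (G : SimpleGraph V) (B : Finset V) : SimpleGraph V where
  Adj x y := G.Adj x y ∧ x ∈ B ∧ y ∈ B
  symm := ⟨fun _ _ h => ⟨h.1.symm, h.2.2, h.2.1⟩⟩
  loopless := ⟨fun _ h => h.1.ne rfl⟩

theorem sub_adj {B : Finset V} {x y : V} : (sub G B).Adj x y ↔ G.Adj x y ∧ x ∈ B ∧ y ∈ B := Iff.rfl

theorem sub_cycle {B : Finset V} {n : ℕ}
    (h : ∀ (w : V) (c : G.Walk w w), c.IsCycle → n ≤ c.length) :
    ∀ (w : V) (c : (sub G B).Walk w w), c.IsCycle → n ≤ c.length := by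
  intro w c hc
  have hle : sub G B ≤ G := fun x y hxy => (sub_adj.1 hxy).1
  have := h w (c.mapLe hle) (hc.mapLe hle)
  rw [SimpleGraph.Walk.length_mapLe] at this
  exact this

/-- **Three anticomplete cycles.** -/
theorem cyc3 [DecidableRel G.Adj] {g : ℕ}
    (hg : ∀ (w : V) (c : G.Walk w w), c.IsCycle → g ≤ c.length) (h12 : 12 ≤ g)
    (h3 : ∀ x y, G.Adj x y → ∃ a b c, G.Adj x a ∧ G.Adj x b ∧ G.Adj x c ∧ a ≠ b ∧ a ≠ c ∧ b ≠ c)
    {f : ZMod g → V} (hf : Cyc G g f) :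
    ∃ S B A R : Finset V, S.Nonempty ∧ A.Nonempty ∧ R.Nonempty ∧
      (∀ v ∈ S, v ∉ B) ∧ (∀ v ∈ S, ∀ w ∈ B, ¬ G.Adj v w) ∧
      (∀ v ∈ A, v ∈ B) ∧ (∀ v ∈ R, v ∈ B) ∧
      (∀ v ∈ A, v ∉ R) ∧ (∀ v ∈ A, ∀ w ∈ R, ¬ G.Adj v w) ∧
      2 * S.card ≤ ∑ x ∈ S, (G.neighborFinset x ∩ S).card ∧
      2 * (B.card + 12) ≤ ∑ x ∈ B, (G.neighborFinset x ∩ B).card ∧
      2 * A.card ≤ ∑ x ∈ A, (G.neighborFinset x ∩ A).card ∧
      2 * R.card ≤ ∑ x ∈ R, (G.neighborFinset x ∩ R).card := by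
  classical
  have : NeZero g := ⟨by omega⟩
  have h12' := le12 hg h12
  obtain ⟨S, hSdef⟩ : ∃ S : Finset V, S = univ.image f := ⟨_, rfl⟩
  have hS : ∀ v, v ∈ S ↔ ∃ i, v = f i := by
    intro v
    rw [hSdef, mem_image]
    exact ⟨fun ⟨i, _, h⟩ => ⟨i, h.symm⟩, fun ⟨i, h⟩ => ⟨i, mem_univ _, h.symm⟩⟩
  have harc := hf.arc_half h12 hS
  obtain ⟨B, hBdef⟩ : ∃ B : Finset V, B = univ.filter (fun v => Far G S v) := ⟨_, rfl⟩
  have hB : ∀ v, v ∈ B ↔ Far G S v := by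
    intro v
    rw [hBdef, mem_filter]
    exact ⟨fun h => h.2, fun h => ⟨mem_univ _, h⟩⟩
  obtain ⟨hdeg, hsumB⟩ := sum_far hg h12 h3 hf hS hB
  -- the second graph
  obtain ⟨H, hHdef⟩ : ∃ H : SimpleGraph V, H = sub G B := ⟨_, rfl⟩
  have hH : ∀ x y, H.Adj x y ↔ G.Adj x y ∧ x ∈ B ∧ y ∈ B := by
    intro x y
    rw [hHdef]
    exact sub_adj
  have hHle : ∀ x y, H.Adj x y → G.Adj x y := fun x y h => ((hH x y).1 h).1
  have hH12 : ∀ (w : V) (c : H.Walk w w), c.IsCycle → 12 ≤ c.length := by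
    rw [hHdef]
    exact sub_cycle h12'
  have h2H : ∀ x y pr, H.Adj x y → ∃ a, H.Adj x a ∧ a ≠ pr := by
    intro x y pr hxy
    have hx := ((hH x y).1 hxy).2.1
    obtain ⟨a, ha, hne⟩ := exists_mem_ne (lt_of_lt_of_le one_lt_two (hdeg x hx)) pr
    rw [mem_inter, SimpleGraph.mem_neighborFinset] at ha
    exact ⟨a, (hH x a).2 ⟨ha.1, hx, ha.2⟩, hne⟩
  obtain ⟨x0, y0, hxy0⟩ : ∃ x y, H.Adj x y := by
    have h1 : ∑ x ∈ B, (G.neighborFinset x ∩ B).card ≠ 0 := by omega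
    obtain ⟨x, hx, hne⟩ := exists_ne_zero_of_sum_ne_zero h1
    obtain ⟨y, hy⟩ := card_pos.1 (Nat.pos_of_ne_zero hne)
    rw [mem_inter, SimpleGraph.mem_neighborFinset] at hy
    exact ⟨x, y, (hH x y).2 ⟨hy.1, hx, hy.2⟩⟩
  obtain ⟨g', hg12', hg', f', hf'⟩ := exists_cyc hH12 h2H hxy0
  have : NeZero g' := ⟨by omega⟩
  obtain ⟨A, hAdef⟩ : ∃ A : Finset V, A = univ.image f' := ⟨_, rfl⟩
  have hA : ∀ v, v ∈ A ↔ ∃ i, v = f' i := by
    intro v
    rw [hAdef, mem_image]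
    exact ⟨fun ⟨i, _, h⟩ => ⟨i, h.symm⟩, fun ⟨i, h⟩ => ⟨i, mem_univ _, h.symm⟩⟩
  have harc' := hf'.arc_half hg12' hA
  have hAB : ∀ v ∈ A, v ∈ B := by
    intro v hv
    obtain ⟨i, rfl⟩ := (hA v).1 hv
    exact ((hH _ _).1 (hf'.adj i)).2.1
  obtain ⟨R, hRdef⟩ : ∃ R : Finset V, R = univ.filter (fun v => Far H A v) := ⟨_, rfl⟩
  have hR : ∀ v, v ∈ R ↔ Far H A v := by
    intro v
    rw [hRdef, mem_filter]
    exact ⟨fun h => h.2, fun h => ⟨mem_univ _, h⟩⟩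
  have hRB : ∀ v ∈ R, v ∈ B := by
    intro v hv
    obtain ⟨⟨y, hy⟩, -⟩ := (hR v).1 hv
    exact ((hH _ _).1 hy).2.1
  have hAR : ∀ v ∈ A, ∀ w ∈ R, ¬ G.Adj v w := by
    intro v hv w hw h
    exact ((hR w).1 hw).2.2 v hv ((hH _ _).2 ⟨h, hAB v hv, hRB w hw⟩)
  -- `P` and `Q`
  obtain ⟨P, hP⟩ : ∃ P : V → Prop, ∀ v, P v ↔ ∃ y, G.Adj v y ∧ y ∉ B := ⟨_, fun v => Iff.rfl⟩
  obtain ⟨Q, hQ⟩ : ∃ Q : V → Prop, ∀ v, Q v ↔ ∃ y, H.Adj v y ∧ y ∉ R := ⟨_, fun v => Iff.rfl⟩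
  have indP : ∀ v ∈ B, ∀ w ∈ B, G.Adj v w → P v → P w → False := by
    intro v hv w hw hvw hPv hPw
    obtain ⟨y, hy, hyB⟩ := (hP v).1 hPv
    obtain ⟨y', hy', hyB'⟩ := (hP w).1 hPw
    exact far_ind hg h12 harc ((hB v).1 hv) ((hB w).1 hw) hvw hy (fun h => hyB ((hB y).2 h)) hy'
      (fun h => hyB' ((hB y').2 h))
  have indQ : ∀ v ∈ R, ∀ w ∈ R, G.Adj v w → Q v → Q w → False := by
    intro v hv w hw hvw hQv hQw
    obtain ⟨y, hy, hyB⟩ := (hQ v).1 hQv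
    obtain ⟨y', hy', hyB'⟩ := (hQ w).1 hQw
    exact far_ind hg' hg12' harc' ((hR v).1 hv) ((hR w).1 hw)
      ((hH _ _).2 ⟨hvw, hRB v hv, hRB w hw⟩) hy (fun h => hyB ((hR y).2 h)) hy'
      (fun h => hyB' ((hR y').2 h))
  have legP : ∀ w ∈ B, P w → ∀ z ∈ B, G.Adj w z → ∃ c, Leg G S 3 c z w := by
    intro w hw hPw z hz hwz
    obtain ⟨y, hy, hyB⟩ := (hP w).1 hPw
    obtain ⟨c, hc⟩ := ((hB w).1 hw).leg h12' hy (fun h => hyB ((hB y).2 h))
    refine ⟨c, hc.ext h12' (by norm_num) hwz ((hB z).1 hz).2.1 ?_⟩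
    rintro rfl
    exact hyB hz
  have legQ : ∀ w ∈ R, Q w → ∀ z ∈ R, G.Adj w z → ∃ c, Leg H A 3 c z w := by
    intro w hw hQw z hz hwz
    obtain ⟨y, hy, hyB⟩ := (hQ w).1 hQw
    obtain ⟨c, hc⟩ := ((hR w).1 hw).leg hH12 hy (fun h => hyB ((hR y).2 h))
    refine ⟨c, hc.ext hH12 (by norm_num) ((hH _ _).2 ⟨hwz, hRB w hw, hRB z hz⟩)
      ((hR z).1 hz).2.1 ?_⟩
    rintro rfl
    exact hyB hz
  -- degrees in `R`
  have hdegR : ∀ w ∈ R, 3 ≤ (G.neighborFinset w ∩ R).card + (if P w then 1 else 0) +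
      (if Q w then 1 else 0) := by
    intro w hw
    have hwB := hRB w hw
    have h4 := deg3_of h3 w _ ((hB w).1 hwB).1.choose_spec
    rw [← G.card_neighborFinset_eq_degree] at h4
    have h5 : (G.neighborFinset w \ B).card ≤ (if P w then 1 else 0) := by
      split_ifs with hPw
      · rw [card_le_one]
        intro y hy y' hy'
        rw [mem_sdiff, SimpleGraph.mem_neighborFinset] at hy hy'
        exact far_one hg h12 harc ((hB w).1 hwB) hy.1 (fun h => hy.2 ((hB y).2 h)) hy'.1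
          (fun h => hy'.2 ((hB y').2 h))
      · rw [Nat.le_zero, card_eq_zero, sdiff_eq_empty_iff_subset]
        intro y hy
        rw [SimpleGraph.mem_neighborFinset] at hy
        by_contra hyB
        exact hPw ((hP w).2 ⟨y, hy, hyB⟩)
    have h6 : ((G.neighborFinset w ∩ B) \ R).card ≤ (if Q w then 1 else 0) := by
      split_ifs with hQw
      · rw [card_le_one]
        intro y hy y' hy'
        rw [mem_sdiff, mem_inter, SimpleGraph.mem_neighborFinset] at hy hy'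
        exact far_one hg' hg12' harc' ((hR w).1 hw) ((hH _ _).2 ⟨hy.1.1, hwB, hy.1.2⟩)
          (fun h => hy.2 ((hR y).2 h)) ((hH _ _).2 ⟨hy'.1.1, hwB, hy'.1.2⟩)
          (fun h => hy'.2 ((hR y').2 h))
      · rw [Nat.le_zero, card_eq_zero, sdiff_eq_empty_iff_subset]
        intro y hy
        rw [mem_inter, SimpleGraph.mem_neighborFinset] at hy
        by_contra hyR
        exact hQw ((hQ w).2 ⟨y, (hH _ _).2 ⟨hy.1, hwB, hy.2⟩, hyR⟩)
    have h7 : G.neighborFinset w ⊆ (G.neighborFinset w ∩ R) ∪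
        ((G.neighborFinset w \ B) ∪ ((G.neighborFinset w ∩ B) \ R)) := by
      intro y hy
      rw [mem_union, mem_union, mem_inter, mem_sdiff, mem_sdiff, mem_inter]
      by_cases h8 : y ∈ B
      · by_cases h9 : y ∈ R
        · exact Or.inl ⟨hy, h9⟩
        · exact Or.inr (Or.inr ⟨⟨hy, h8⟩, h9⟩)
      · exact Or.inr (Or.inl ⟨hy, h8⟩)
    have h8 := (card_le_card h7).trans ((card_union_le _ _).trans
      (Nat.add_le_add_left (card_union_le _ _) _))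
    omega
  -- the sets `L` and `Z`
  obtain ⟨L, hLdef⟩ : ∃ L : Finset V, L = R.filter (fun v => P v ∧ Q v) := ⟨_, rfl⟩
  obtain ⟨Z, hZdef⟩ : ∃ Z : Finset V, Z = R.filter (fun v => ¬ P v ∧ ¬ Q v) := ⟨_, rfl⟩
  have hL : ∀ v, v ∈ L ↔ v ∈ R ∧ P v ∧ Q v := fun v => by rw [hLdef, mem_filter]
  have hZ : ∀ v, v ∈ Z ↔ v ∈ R ∧ ¬ P v ∧ ¬ Q v := fun v => by rw [hZdef, mem_filter]
  have hLZ : ∀ w ∈ L, ∃ z ∈ Z, G.Adj w z := by
    intro w hw
    obtain ⟨hwR, hPw, hQw⟩ := (hL w).1 hw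
    have h4 := hdegR w hwR
    rw [if_pos hPw, if_pos hQw] at h4
    obtain ⟨z, hz⟩ := card_pos.1 (show 0 < (G.neighborFinset w ∩ R).card by omega)
    rw [mem_inter, SimpleGraph.mem_neighborFinset] at hz
    refine ⟨z, (hZ z).2 ⟨hz.2, fun h => ?_, fun h => ?_⟩, hz.1⟩
    · exact indP w (hRB w hwR) z (hRB z hz.2) hz.1 hPw h
    · exact indQ w hwR z hz.2 hz.1 hQw h
  -- neighbours of vertices of `Z`
  have hZR : ∀ z ∈ Z, ∀ v, G.Adj z v → v ∈ R := by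
    intro z hz v hv
    obtain ⟨hzR, hPz, hQz⟩ := (hZ z).1 hz
    have h4 : v ∈ B := by
      by_contra h
      exact hPz ((hP z).2 ⟨v, hv, h⟩)
    by_contra h
    exact hQz ((hQ z).2 ⟨v, (hH _ _).2 ⟨hv, hRB z hzR, h4⟩, h⟩)
  have two : ∀ z ∈ Z, 2 ≤ (G.neighborFinset z ∩ L).card → ∃ w w', w ∈ L ∧ w' ∈ L ∧ G.Adj z w ∧
      G.Adj z w' ∧ w ≠ w' := by
    intro z hz h
    obtain ⟨w, hw, w', hw', hne⟩ := one_lt_card.1 (lt_of_lt_of_le one_lt_two h)
    rw [mem_inter, SimpleGraph.mem_neighborFinset] at hw hw'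
    exact ⟨w, w', hw.2, hw'.2, hw.1, hw'.1, hne⟩
  have lam2 : ∀ z ∈ Z, (G.neighborFinset z ∩ L).card ≤ 2 := by
    intro z hz
    by_cases h : 2 ≤ (G.neighborFinset z ∩ L).card
    swap
    · omega
    obtain ⟨w, w', hw, hw', hzw, hzw', hne⟩ := two z hz h
    obtain ⟨hzR, -, -⟩ := (hZ z).1 hz
    obtain ⟨hwR, hPw, hQw⟩ := (hL w).1 hw
    obtain ⟨hwR', hPw', hQw'⟩ := (hL w').1 hw'
    obtain ⟨c, hc⟩ := legP w (hRB w hwR) hPw z (hRB z hzR) hzw.symm
    obtain ⟨c', hc'⟩ := legP w' (hRB w' hwR') hPw' z (hRB z hzR) hzw'.symm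
    refine (card_le_card (t := {w, w'}) ?_).trans card_le_two
    intro u hu
    rw [mem_inter, SimpleGraph.mem_neighborFinset] at hu
    obtain ⟨huR, hPu, -⟩ := (hL u).1 hu.2
    obtain ⟨c3, hc3⟩ := legP u (hRB u huR) hPu z (hRB z hzR) hu.1.symm
    rw [mem_insert, mem_singleton]
    exact third hg h12 hf hS hc hc' hne hc3
  have hv : ∀ z ∈ Z.filter (fun z => 2 ≤ (G.neighborFinset z ∩ L).card),
      ∃ v, v ∈ Z.filter (fun z => (G.neighborFinset z ∩ L).card = 0) ∧ G.Adj z v ∧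
        ∀ z' ∈ Z, 1 ≤ (G.neighborFinset z' ∩ L).card → G.Adj v z' → z' = z := by
    intro z hz
    obtain ⟨hz, h⟩ := mem_filter.1 hz
    obtain ⟨w, w', hw, hw', hzw, hzw', hne⟩ := two z hz h
    obtain ⟨hzR, hPz, hQz⟩ := (hZ z).1 hz
    obtain ⟨hwR, hPw, hQw⟩ := (hL w).1 hw
    obtain ⟨hwR', hPw', hQw'⟩ := (hL w').1 hw'
    obtain ⟨c, hc⟩ := legP w (hRB w hwR) hPw z (hRB z hzR) hzw.symm
    obtain ⟨c', hc'⟩ := legP w' (hRB w' hwR') hPw' z (hRB z hzR) hzw'.symm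
    obtain ⟨d, hd⟩ := legQ w hwR hQw z hzR hzw.symm
    obtain ⟨d', hd'⟩ := legQ w' hwR' hQw' z hzR hzw'.symm
    obtain ⟨v, hzv, hvw, hvw'⟩ : ∃ v, G.Adj z v ∧ v ≠ w ∧ v ≠ w' := by
      have h4 := deg3_of h3 z w hzw
      rw [← G.card_neighborFinset_eq_degree] at h4
      have h5 : 0 < (G.neighborFinset z \ {w, w'}).card := by
        have := le_card_sdiff {w, w'} (G.neighborFinset z)
        have h6 : ({w, w'} : Finset V).card ≤ 2 := card_le_two
        omega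
      obtain ⟨v, hv⟩ := card_pos.1 h5
      rw [mem_sdiff, SimpleGraph.mem_neighborFinset, mem_insert, mem_singleton, not_or] at hv
      exact ⟨v, hv⟩
    have hvR := hZR z hz v hzv
    have hvB := hRB v hvR
    have hPv : ¬ P v := by
      intro hPv
      obtain ⟨c3, hc3⟩ := legP v hvB hPv z (hRB z hzR) hzv.symm
      rcases third hg h12 hf hS hc hc' hne hc3 with h | h
      · exact hvw h
      · exact hvw' h
    have hQv : ¬ Q v := by
      intro hQv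
      obtain ⟨c3, hc3⟩ := legQ v hvR hQv z hzR hzv.symm
      rcases third hg' hg12' hf' hA hd hd' hne hc3 with h | h
      · exact hvw h
      · exact hvw' h
    have hvS : v ∉ S := ((hB v).1 hvB).2.1
    refine ⟨v, mem_filter.2 ⟨(hZ v).2 ⟨hvR, hPv, hQv⟩, ?_⟩, hzv, ?_⟩
    · rw [card_eq_zero, eq_empty_iff_forall_notMem]
      intro u hu
      rw [mem_inter, SimpleGraph.mem_neighborFinset] at hu
      obtain ⟨huR, hPu, -⟩ := (hL u).1 hu.2
      obtain ⟨c3, hc3⟩ := legP u (hRB u huR) hPu v hvB hu.1.symm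
      have := (fourth hg h12 hf hS hc hc' hne hzv hvw hvw' hvS (by norm_num) hc3).1
      omega
    · intro z' hz' h1 hvz'
      obtain ⟨u, hu⟩ := card_pos.1 h1
      rw [mem_inter, SimpleGraph.mem_neighborFinset] at hu
      obtain ⟨huR, hPu, -⟩ := (hL u).1 hu.2
      have hzR' := ((hZ z').1 hz').1
      obtain ⟨c3, hc3⟩ := legP u (hRB u huR) hPu z' (hRB z' hzR') hu.1.symm
      have hc4 := hc3.ext h12' (by norm_num) hvz'.symm hvS (by
        rintro rfl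
        exact hPv hPu)
      exact (fourth hg h12 hf hS hc hc' hne hzv hvw hvw' hvS (by norm_num) hc4).2
  have hLle : L.card ≤ Z.card := by
    choose! ζ hζ1 hζ2 using hLZ
    have h4 : L.card = ∑ z ∈ Z, (L.filter (fun w => ζ w = z)).card :=
      card_eq_sum_card_fiberwise (fun w hw => hζ1 w hw)
    have h5 : L.card ≤ ∑ z ∈ Z, ((if 1 ≤ (G.neighborFinset z ∩ L).card then 1 else 0) +
        (if 2 ≤ (G.neighborFinset z ∩ L).card then 1 else 0)) := by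
      rw [h4]
      refine sum_le_sum fun z hz => ?_
      have h6 : (L.filter (fun w => ζ w = z)).card ≤ (G.neighborFinset z ∩ L).card := by
        refine card_le_card fun w hw => ?_
        obtain ⟨hw, hwz⟩ := mem_filter.1 hw
        rw [mem_inter, SimpleGraph.mem_neighborFinset]
        refine ⟨?_, hw⟩
        rw [← hwz]
        exact (hζ2 w hw).symm
      have h7 := lam2 z hz
      split_ifs <;> omega
    rw [sum_add_distrib, ← card_filter, ← card_filter] at h5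
    have h6 : (Z.filter (fun z => 2 ≤ (G.neighborFinset z ∩ L).card)).card ≤
        (Z.filter (fun z => (G.neighborFinset z ∩ L).card = 0)).card := by
      choose! ν hν1 hν2 hν3 using hv
      refine card_le_card_of_injOn ν (fun z hz => hν1 z hz) ?_
      intro z1 h1 z2 h2 h
      have h2' := mem_filter.1 (mem_coe.1 h2)
      refine (hν3 z1 (mem_coe.1 h1) z2 h2'.1 (by omega) ?_).symm
      have h8 := (hν2 z2 (mem_coe.1 h2)).symm
      rw [← h] at h8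
      exact h8
    have h7 : (Z.filter (fun z => 1 ≤ (G.neighborFinset z ∩ L).card)).card +
        (Z.filter (fun z => (G.neighborFinset z ∩ L).card = 0)).card ≤ Z.card := by
      rw [← card_union_of_disjoint]
      · exact card_le_card (union_subset (filter_subset _ _) (filter_subset _ _))
      · rw [disjoint_left]
        intro z h1 h2
        rw [mem_filter] at h1 h2
        omega
    omega
  have hsumR : 2 * R.card ≤ ∑ x ∈ R, (G.neighborFinset x ∩ R).card := by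
    have h4 : ∑ x ∈ R, (2 + if x ∈ Z then 1 else 0) ≤
        ∑ x ∈ R, ((G.neighborFinset x ∩ R).card + if x ∈ L then 1 else 0) := by
      refine sum_le_sum fun x hx => ?_
      have h5 := hdegR x hx
      have h6 := hL x
      have h7 := hZ x
      by_cases hPx : P x <;> by_cases hQx : Q x
      · rw [if_neg (fun h => (h7.1 h).2.1 hPx), if_pos (h6.2 ⟨hx, hPx, hQx⟩)]
        rw [if_pos hPx, if_pos hQx] at h5
        omega
      · rw [if_neg (fun h => (h7.1 h).2.1 hPx), if_neg (fun h => hQx (h6.1 h).2.2)]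
        rw [if_pos hPx, if_neg hQx] at h5
        omega
      · rw [if_neg (fun h => (h7.1 h).2.2 hQx), if_neg (fun h => hPx (h6.1 h).2.1)]
        rw [if_neg hPx, if_pos hQx] at h5
        omega
      · rw [if_pos (h7.2 ⟨hx, hPx, hQx⟩), if_neg (fun h => hPx (h6.1 h).2.1)]
        rw [if_neg hPx, if_neg hQx] at h5
        omega
    rw [sum_add_distrib, sum_add_distrib, sum_const, smul_eq_mul, ← card_filter,
      ← card_filter] at h4
    have h5 : R.filter (fun x => x ∈ Z) = Z := by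
      ext x
      rw [mem_filter]
      exact ⟨fun h => h.2, fun h => ⟨((hZ x).1 h).1, h⟩⟩
    have h6 : R.filter (fun x => x ∈ L) = L := by
      ext x
      rw [mem_filter]
      exact ⟨fun h => h.2, fun h => ⟨((hL x).1 h).1, h⟩⟩
    rw [h5, h6] at h4
    omega
  -- `R` is not empty
  have hRne : R.Nonempty := by
    obtain ⟨i, hi⟩ : ∃ i, ∀ y, G.Adj (f' i) y → y ∈ B := by
      by_contra hno
      push Not at hno
      obtain ⟨y, hy, hyB⟩ := hno 0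
      obtain ⟨y', hy', hyB'⟩ := hno (0 + 1)
      exact indP _ (hAB _ ((hA _).2 ⟨_, rfl⟩)) _ (hAB _ ((hA _).2 ⟨_, rfl⟩))
        (hHle _ _ (hf'.adj 0)) ((hP _).2 ⟨y, hy, hyB⟩) ((hP _).2 ⟨y', hy', hyB'⟩)
    have hiA : f' i ∈ A := (hA _).2 ⟨_, rfl⟩
    have hiB := hAB _ hiA
    obtain ⟨a, b, c, ha, hb, hc, hab, hac, hbc⟩ := h3 _ _ (hHle _ _ (hf'.adj i))
    obtain ⟨x, hx, hxA⟩ := hf'.outside hg' hg12' hA i ⟨a, b, c, (hH _ _).2 ⟨ha, hiB, hi _ ha⟩,
      (hH _ _).2 ⟨hb, hiB, hi _ hb⟩, (hH _ _).2 ⟨hc, hiB, hi _ hc⟩, hab, hac, hbc⟩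
    have L1 := leg_one hiA hxA hx
    obtain ⟨w, hw, hwne⟩ := h2H x _ (f' i) hx.symm
    have hwA := L1.out hg' harc' (by norm_num) (by omega) hw hwne
    have L2 := L1.ext hH12 (by norm_num) hw hwA hwne
    refine ⟨w, (hR w).2 ⟨⟨x, hw.symm⟩, hwA, fun c hc h => ?_⟩⟩
    have := (join hg' L2 (leg_one hc hwA h) (harc' c hc _ hiA) (by omega)).2.1
    omega
  refine ⟨S, B, A, R, ⟨f 0, (hS _).2 ⟨0, rfl⟩⟩, ⟨f' 0, (hA _).2 ⟨0, rfl⟩⟩, hRne,
    fun v hv h => ((hB v).1 h).2.1 hv, fun v hv w hw h => ((hB w).1 hw).2.2 v hv h, hAB, hRB,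
    fun v hv h => ((hR v).1 h).2.1 hv, hAR, sum_cyc (fun _ _ h => h) h12 hf hS, hsumB,
    sum_cyc hHle hg12' hf' hA, hsumR⟩

end graph

end Pool.Agent.Run7.H85.FL
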